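import Mathlib

/-! Concentration of the sum of `a (σ i)` over a window of positions, `σ` a random permutation. -/

open Finset

namespace Pool.Agent.H99.OG

variable {N : ℕ}

/-- the sum over all permutations of the products over the positions in `W` -/
noncomputable def FF (x : Fin N → ℝ) (W : Finset (Fin N)) : ℝ :=
  ∑ σ : Equiv.Perm (Fin N), ∏ i ∈ W, x (σ i)

lemma sum_swap (f : Equiv.Perm (Fin N) → ℝ) (i j : Fin N) :
    ∑ σ : Equiv.Perm (Fin N), f (σ * Equiv.swap i j) = ∑ σ : Equiv.Perm (Fin N), f σ :=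
  Equiv.sum_comp (Equiv.mulRight (Equiv.swap i j)) f

lemma prod_swap_of_notMem (x : Fin N → ℝ) (W : Finset (Fin N)) (σ : Equiv.Perm (Fin N))
    {i j : Fin N} (hi : i ∉ W) (hj : j ∉ W) :
    ∏ l ∈ W, x ((σ * Equiv.swap i j) l) = ∏ l ∈ W, x (σ l) := by
  refine Finset.prod_congr rfl fun l hl => ?_
  have h1 : l ≠ i := fun h => hi (h ▸ hl)
  have h2 : l ≠ j := fun h => hj (h ▸ hl)
  rw [Equiv.Perm.mul_apply, Equiv.swap_apply_of_ne_of_ne h1 h2]

lemma FF_nonneg (x : Fin N → ℝ) (hx : ∀ i, 0 ≤ x i) (W : Finset (Fin N)) : 0 ≤ FF x W :=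
  Finset.sum_nonneg fun _ _ => Finset.prod_nonneg fun _ _ => hx _

lemma FF_insert_eq (x : Fin N → ℝ) (W : Finset (Fin N)) {i j : Fin N} (hi : i ∉ W) (hj : j ∉ W) :
    FF x (insert i W) = FF x (insert j W) := by
  unfold FF
  rw [← sum_swap (fun σ => ∏ l ∈ insert i W, x (σ l)) i j]
  refine Finset.sum_congr rfl fun σ _ => ?_
  rw [Finset.prod_insert hi, Finset.prod_insert hj, prod_swap_of_notMem x W σ hi hj,
    Equiv.Perm.mul_apply, Equiv.swap_apply_left]

lemma FF_mul_mem (x : Fin N → ℝ) (hx : ∀ i, 0 ≤ x i) (W : Finset (Fin N)) {i j : Fin N}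
    (hi : i ∈ W) (hj : j ∉ W) :
    FF x (insert j W) ≤ ∑ σ : Equiv.Perm (Fin N), x (σ i) * ∏ l ∈ W, x (σ l) := by
  classical
  set V := W.erase i with hV
  have hiV : i ∉ V := Finset.notMem_erase i W
  have hjV : j ∉ V := fun h => hj (Finset.mem_of_mem_erase h)
  have hW : insert i V = W := Finset.insert_erase hi
  have hji : j ∉ insert i V := by rw [hW]; exact hj
  have e1 : ∑ σ : Equiv.Perm (Fin N), x (σ i) * ∏ l ∈ W, x (σ l) =
      ∑ σ : Equiv.Perm (Fin N), x (σ i) ^ 2 * ∏ l ∈ V, x (σ l) := by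
    refine Finset.sum_congr rfl fun σ _ => ?_
    rw [← hW, Finset.prod_insert hiV]; ring
  have e2 : ∑ σ : Equiv.Perm (Fin N), x (σ i) ^ 2 * ∏ l ∈ V, x (σ l) =
      ∑ σ : Equiv.Perm (Fin N), x (σ j) ^ 2 * ∏ l ∈ V, x (σ l) := by
    rw [← sum_swap (fun σ => x (σ i) ^ 2 * ∏ l ∈ V, x (σ l)) i j]
    refine Finset.sum_congr rfl fun σ _ => ?_
    rw [prod_swap_of_notMem x V σ hiV hjV, Equiv.Perm.mul_apply, Equiv.swap_apply_left]
  have e3 : FF x (insert j W) =
      ∑ σ : Equiv.Perm (Fin N), x (σ j) * x (σ i) * ∏ l ∈ V, x (σ l) := by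
    unfold FF
    refine Finset.sum_congr rfl fun σ _ => ?_
    rw [Finset.prod_insert hj, ← hW, Finset.prod_insert hiV]; ring
  have e4 : 2 * ∑ σ : Equiv.Perm (Fin N), x (σ i) ^ 2 * ∏ l ∈ V, x (σ l) =
      ∑ σ : Equiv.Perm (Fin N), (x (σ i) ^ 2 + x (σ j) ^ 2) * ∏ l ∈ V, x (σ l) := by
    rw [two_mul]
    nth_rewrite 2 [e2]
    rw [← Finset.sum_add_distrib]
    exact Finset.sum_congr rfl fun σ _ => by ring
  have e5 : 2 * FF x (insert j W) ≤ 2 * ∑ σ : Equiv.Perm (Fin N), x (σ i) ^ 2 * ∏ l ∈ V, x (σ l) := by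
    rw [e4, e3, Finset.mul_sum]
    refine Finset.sum_le_sum fun σ _ => ?_
    have h0 : 0 ≤ ∏ l ∈ V, x (σ l) := Finset.prod_nonneg fun _ _ => hx _
    have h1 : 2 * (x (σ j) * x (σ i)) ≤ x (σ i) ^ 2 + x (σ j) ^ 2 := by
      nlinarith [sq_nonneg (x (σ i) - x (σ j))]
    calc 2 * (x (σ j) * x (σ i) * ∏ l ∈ V, x (σ l))
        = (2 * (x (σ j) * x (σ i))) * ∏ l ∈ V, x (σ l) := by ring
      _ ≤ _ := mul_le_mul_of_nonneg_right h1 h0
  rw [e1]
  linarith

lemma FF_step (x : Fin N → ℝ) (hx : ∀ i, 0 ≤ x i) (W : Finset (Fin N)) {j : Fin N} (hj : j ∉ W) :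
    N * FF x (insert j W) ≤ (∑ i, x i) * FF x W := by
  classical
  have h1 : (∑ i, x i) * FF x W = ∑ i : Fin N, ∑ σ : Equiv.Perm (Fin N), x (σ i) * ∏ l ∈ W, x (σ l) := by
    unfold FF
    rw [Finset.mul_sum, Finset.sum_comm]
    refine Finset.sum_congr rfl fun σ _ => ?_
    rw [← Finset.sum_mul, Equiv.sum_comp σ x]
  rw [h1]
  have h2 : ∀ i : Fin N, FF x (insert j W) ≤ ∑ σ : Equiv.Perm (Fin N), x (σ i) * ∏ l ∈ W, x (σ l) := by
    intro i
    by_cases hi : i ∈ W
    · exact FF_mul_mem x hx W hi hj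
    · rw [FF_insert_eq x W hj hi]
      unfold FF
      refine le_of_eq (Finset.sum_congr rfl fun σ _ => ?_)
      rw [Finset.prod_insert hi]
  calc (N : ℝ) * FF x (insert j W) = ∑ _i : Fin N, FF x (insert j W) := by
        rw [Finset.sum_const, Finset.card_univ, Fintype.card_fin, nsmul_eq_mul]
    _ ≤ _ := Finset.sum_le_sum fun i _ => h2 i

lemma FF_le (hN : 0 < N) (x : Fin N → ℝ) (hx : ∀ i, 0 ≤ x i) (W : Finset (Fin N)) :
    FF x W ≤ N.factorial * ((∑ i, x i) / N) ^ W.card := by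
  classical
  have hN' : (0 : ℝ) < N := by exact_mod_cast hN
  have hs : 0 ≤ (∑ i, x i) / N := div_nonneg (Finset.sum_nonneg fun i _ => hx i) hN'.le
  induction W using Finset.induction_on with
  | empty =>
    simp [FF, Fintype.card_perm, Fintype.card_fin]
  | insert j W hj ih =>
    have h1 := FF_step x hx W hj
    have h2 : FF x (insert j W) ≤ (∑ i, x i) / N * FF x W := by
      rw [div_mul_eq_mul_div, le_div_iff₀ hN']
      linarith
    calc FF x (insert j W) ≤ (∑ i, x i) / N * FF x W := h2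
      _ ≤ (∑ i, x i) / N * (N.factorial * ((∑ i, x i) / N) ^ W.card) :=
          mul_le_mul_of_nonneg_left ih hs
      _ = N.factorial * ((∑ i, x i) / N) ^ (insert j W).card := by
          rw [Finset.card_insert_of_notMem hj, pow_succ]; ring

/-- Chernoff's bound with a real parameter `t` of any sign. -/
lemma chernoff (hN : 0 < N) (a : Fin N → ℝ) (W : Finset (Fin N)) (t lam : ℝ) :
    (((univ : Finset (Equiv.Perm (Fin N))).filter
      (fun σ => lam ≤ t * ∑ i ∈ W, a (σ i))).card : ℝ) * Real.exp lam ≤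
      N.factorial * ((∑ i, Real.exp (t * a i)) / N) ^ W.card := by
  classical
  refine le_trans ?_ (FF_le hN (fun i => Real.exp (t * a i)) (fun i => (Real.exp_pos _).le) W)
  unfold FF
  calc (((univ : Finset (Equiv.Perm (Fin N))).filter
      (fun σ => lam ≤ t * ∑ i ∈ W, a (σ i))).card : ℝ) * Real.exp lam
      = ∑ _σ ∈ (univ : Finset (Equiv.Perm (Fin N))).filter
          (fun σ => lam ≤ t * ∑ i ∈ W, a (σ i)), Real.exp lam := by
        rw [Finset.sum_const, nsmul_eq_mul]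
    _ ≤ ∑ σ ∈ (univ : Finset (Equiv.Perm (Fin N))).filter
          (fun σ => lam ≤ t * ∑ i ∈ W, a (σ i)), ∏ i ∈ W, Real.exp (t * a (σ i)) := by
        refine Finset.sum_le_sum fun σ hσ => ?_
        rw [← Real.exp_sum, ← Finset.mul_sum]
        exact Real.exp_le_exp.2 (Finset.mem_filter.1 hσ).2
    _ ≤ _ := Finset.sum_le_sum_of_subset_of_nonneg (Finset.filter_subset _ _)
        fun σ _ _ => Finset.prod_nonneg fun i _ => (Real.exp_pos _).le

lemma exp_le_quad {y : ℝ} (hy : |y| ≤ 1) : Real.exp y ≤ 1 + y + y ^ 2 := by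
  have h := Real.abs_exp_sub_one_sub_id_le hy
  have := (abs_le.1 h).2
  linarith

/-- One tail, `s = 1` for large sums and `s = -1` for small sums. -/
lemma tail (hN : 0 < N) (a : Fin N → ℝ) (M δ : ℝ) (hM : 0 < M) (hδ : 0 < δ) (hδ1 : δ ≤ 1)
    (ha : ∀ i, 0 ≤ a i ∧ a i ≤ M) (W : Finset (Fin N)) (s : ℝ) (hs : s = 1 ∨ s = -1) :
    (((univ : Finset (Equiv.Perm (Fin N))).filter
      (fun σ => s * (W.card * ((∑ i, a i) / N)) + δ * (W.card * ((∑ i, a i) / N)) ≤
        s * ∑ i ∈ W, a (σ i))).card : ℝ) ≤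
      N.factorial * Real.exp (-(δ ^ 2 * (W.card * ((∑ i, a i) / N)) / (4 * M))) := by
  classical
  set μ := (∑ i, a i) / N with hμ
  have hN' : (0 : ℝ) < N := by exact_mod_cast hN
  set t : ℝ := δ / (2 * M) with ht
  have ht0 : 0 < t := by positivity
  have htM : t * M = δ / 2 := by rw [ht]; field_simp
  have hs2 : s ^ 2 = 1 := by rcases hs with h | h <;> rw [h] <;> norm_num
  have hsabs : |s| = 1 := by rcases hs with h | h <;> rw [h] <;> norm_num
  have hmean : (∑ i, Real.exp (s * t * a i)) / N ≤ Real.exp (s * t * μ + t * (t * M) * μ) := by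
    have h1 : ∀ i, Real.exp (s * t * a i) ≤ 1 + s * t * a i + t * (t * M) * a i := by
      intro i
      have hb : |s * t * a i| ≤ 1 := by
        rw [abs_mul, abs_mul, hsabs, abs_of_pos ht0, abs_of_nonneg (ha i).1]
        have : t * a i ≤ t * M := mul_le_mul_of_nonneg_left (ha i).2 ht0.le
        linarith
      have h2 := exp_le_quad hb
      have h3 : (s * t * a i) ^ 2 ≤ t * (t * M) * a i := by
        have : (s * t * a i) ^ 2 = s ^ 2 * (t * (t * a i) * a i) := by ring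
        rw [this, hs2, one_mul]
        apply mul_le_mul_of_nonneg_right _ (ha i).1
        exact mul_le_mul_of_nonneg_left (mul_le_mul_of_nonneg_left (ha i).2 ht0.le) ht0.le
      linarith
    have h4 : (∑ i, Real.exp (s * t * a i)) ≤ ∑ i : Fin N, (1 + s * t * a i + t * (t * M) * a i) :=
      Finset.sum_le_sum fun i _ => h1 i
    have h5 : ∑ i : Fin N, (1 + s * t * a i + t * (t * M) * a i) =
        N * (1 + (s * t * μ + t * (t * M) * μ)) := by
      rw [Finset.sum_add_distrib, Finset.sum_add_distrib, ← Finset.mul_sum, ← Finset.mul_sum,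
        Finset.sum_const, Finset.card_univ, Fintype.card_fin, hμ]
      simp only [nsmul_eq_mul, mul_one]
      field_simp
      ring
    rw [div_le_iff₀ hN']
    calc (∑ i, Real.exp (s * t * a i)) ≤ N * (1 + (s * t * μ + t * (t * M) * μ)) := h5 ▸ h4
      _ ≤ N * Real.exp (s * t * μ + t * (t * M) * μ) := by
          apply mul_le_mul_of_nonneg_left _ hN'.le
          linarith [Real.add_one_le_exp (s * t * μ + t * (t * M) * μ)]
      _ = _ := by ring
  have hch := chernoff hN a W (s * t) (s * t * (W.card * μ) + t * δ * (W.card * μ))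
  have hsub : ((univ : Finset (Equiv.Perm (Fin N))).filter
      (fun σ => s * (W.card * μ) + δ * (W.card * μ) ≤ s * ∑ i ∈ W, a (σ i))) ⊆
      ((univ : Finset (Equiv.Perm (Fin N))).filter
      (fun σ => s * t * (W.card * μ) + t * δ * (W.card * μ) ≤ s * t * ∑ i ∈ W, a (σ i))) := by
    intro σ hσ
    rw [Finset.mem_filter] at hσ ⊢
    refine ⟨hσ.1, ?_⟩
    have := mul_le_mul_of_nonneg_left hσ.2 ht0.le
    nlinarith [this]
  have hcard : (((univ : Finset (Equiv.Perm (Fin N))).filter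
      (fun σ => s * (W.card * μ) + δ * (W.card * μ) ≤ s * ∑ i ∈ W, a (σ i))).card : ℝ) ≤
      ((univ : Finset (Equiv.Perm (Fin N))).filter
      (fun σ => s * t * (W.card * μ) + t * δ * (W.card * μ) ≤ s * t * ∑ i ∈ W, a (σ i))).card := by
    exact_mod_cast Finset.card_le_card hsub
  have hE := Real.exp_pos (s * t * (W.card * μ) + t * δ * (W.card * μ))
  have h6 : (((univ : Finset (Equiv.Perm (Fin N))).filter
      (fun σ => s * (W.card * μ) + δ * (W.card * μ) ≤ s * ∑ i ∈ W, a (σ i))).card : ℝ) ≤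
      N.factorial * ((∑ i, Real.exp (s * t * a i)) / N) ^ W.card /
        Real.exp (s * t * (W.card * μ) + t * δ * (W.card * μ)) := by
    rw [le_div_iff₀ hE]
    exact (mul_le_mul_of_nonneg_right hcard hE.le).trans hch
  refine h6.trans ?_
  have h7 : ((∑ i, Real.exp (s * t * a i)) / N) ^ W.card ≤
      Real.exp (W.card * (s * t * μ + t * (t * M) * μ)) := by
    rw [Real.exp_nat_mul]
    refine pow_le_pow_left₀ ?_ hmean _
    exact div_nonneg (Finset.sum_nonneg fun i _ => (Real.exp_pos _).le) hN'.le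
  rw [mul_div_assoc]
  apply mul_le_mul_of_nonneg_left _ (by positivity)
  rw [div_le_iff₀ hE, ← Real.exp_add]
  refine h7.trans (le_of_eq ?_)
  congr 1
  rw [htM, ht]
  field_simp
  ring

/-- Both tails. -/
lemma conc (hN : 0 < N) (a : Fin N → ℝ) (M δ : ℝ) (hM : 0 < M) (hδ : 0 < δ) (hδ1 : δ ≤ 1)
    (ha : ∀ i, 0 ≤ a i ∧ a i ≤ M) (W : Finset (Fin N)) :
    (((univ : Finset (Equiv.Perm (Fin N))).filter
      (fun σ => δ * (W.card * ((∑ i, a i) / N)) ≤
        |∑ i ∈ W, a (σ i) - W.card * ((∑ i, a i) / N)|)).card : ℝ) ≤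
      2 * (N.factorial * Real.exp (-(δ ^ 2 * (W.card * ((∑ i, a i) / N)) / (4 * M)))) := by
  classical
  have h1 := tail hN a M δ hM hδ hδ1 ha W 1 (Or.inl rfl)
  have h2 := tail hN a M δ hM hδ hδ1 ha W (-1) (Or.inr rfl)
  have h3 : (univ : Finset (Equiv.Perm (Fin N))).filter
      (fun σ => δ * (W.card * ((∑ i, a i) / N)) ≤
        |∑ i ∈ W, a (σ i) - W.card * ((∑ i, a i) / N)|) ⊆
      (univ : Finset (Equiv.Perm (Fin N))).filter
      (fun σ => 1 * (W.card * ((∑ i, a i) / N)) + δ * (W.card * ((∑ i, a i) / N)) ≤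
        1 * ∑ i ∈ W, a (σ i)) ∪
      (univ : Finset (Equiv.Perm (Fin N))).filter
      (fun σ => -1 * (W.card * ((∑ i, a i) / N)) + δ * (W.card * ((∑ i, a i) / N)) ≤
        -1 * ∑ i ∈ W, a (σ i)) := by
    intro σ hσ
    rw [Finset.mem_filter] at hσ
    rw [Finset.mem_union, Finset.mem_filter, Finset.mem_filter]
    rcases le_abs.1 hσ.2 with h | h
    · left; exact ⟨Finset.mem_univ _, by linarith⟩
    · right; exact ⟨Finset.mem_univ _, by linarith⟩
  have h4 : (((univ : Finset (Equiv.Perm (Fin N))).filter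
      (fun σ => δ * (W.card * ((∑ i, a i) / N)) ≤
        |∑ i ∈ W, a (σ i) - W.card * ((∑ i, a i) / N)|)).card : ℝ) ≤
      (((univ : Finset (Equiv.Perm (Fin N))).filter
      (fun σ => 1 * (W.card * ((∑ i, a i) / N)) + δ * (W.card * ((∑ i, a i) / N)) ≤
        1 * ∑ i ∈ W, a (σ i))).card : ℝ) +
      (((univ : Finset (Equiv.Perm (Fin N))).filter
      (fun σ => -1 * (W.card * ((∑ i, a i) / N)) + δ * (W.card * ((∑ i, a i) / N)) ≤
        -1 * ∑ i ∈ W, a (σ i))).card : ℝ) := by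
    exact_mod_cast (Finset.card_le_card h3).trans (Finset.card_union_le _ _)
  linarith

end Pool.Agent.H99.OG
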