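import Mathlib

/-! The deterministic part: regular windows of gaps give regular counts. -/

open Finset

namespace Pool.Agent.H99.OG

/-- the points `P 0 = P0`, `P (k+1) = P k + b k` -/
def PP (P0 : ℕ) (b : ℕ → ℕ) (k : ℕ) : ℕ := P0 + ∑ j ∈ range k, b j

lemma PP_zero (P0 : ℕ) (b : ℕ → ℕ) : PP P0 b 0 = P0 := by simp [PP]

lemma PP_succ (P0 : ℕ) (b : ℕ → ℕ) (k : ℕ) : PP P0 b (k + 1) = PP P0 b k + b k := by
  unfold PP; rw [Finset.sum_range_succ]; ring

lemma PP_mono (P0 : ℕ) (b : ℕ → ℕ) : Monotone (PP P0 b) := by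
  refine monotone_nat_of_le_succ fun k => ?_
  rw [PP_succ]; omega

lemma PP_Ico (P0 : ℕ) (b : ℕ → ℕ) {i j : ℕ} (h : i ≤ j) :
    PP P0 b j = PP P0 b i + ∑ l ∈ Ico i j, b l := by
  unfold PP
  rw [← Finset.sum_range_add_sum_Ico b h]; ring

lemma PP_lt (P0 : ℕ) (b : ℕ → ℕ) {N : ℕ} (hb : ∀ j < N, 0 < b j) {i j : ℕ} (hij : i < j)
    (hj : j ≤ N) : PP P0 b i < PP P0 b j := by
  have h1 : PP P0 b (i + 1) ≤ PP P0 b j := PP_mono P0 b hij
  rw [PP_succ] at h1
  have := hb i (by omega)
  omega

/-- the integer `z` lies in a gap longer than `M` -/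
def Big (P0 : ℕ) (b : ℕ → ℕ) (N : ℕ) (M : ℝ) (z : ℕ) : Prop :=
  ∃ j < N, PP P0 b j < z ∧ z ≤ PP P0 b (j + 1) ∧ M < b j

/-- the gap lengths without the long ones -/
noncomputable def sm (b : ℕ → ℕ) (M : ℝ) (j : ℕ) : ℝ := if (b j : ℝ) ≤ M then (b j : ℝ) else 0

lemma sm_nonneg (b : ℕ → ℕ) (M : ℝ) (j : ℕ) : 0 ≤ sm b M j := by
  unfold sm; split_ifs <;> positivity

lemma sm_le (b : ℕ → ℕ) (M : ℝ) (j : ℕ) : sm b M j ≤ b j := by
  unfold sm; split_ifs <;> simp

open Classical in
/-- one-sided maximal inequality on the integers -/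
lemma maximal (u : ℕ → Prop) (δ : ℝ) (hδ : 0 < δ) (B : ℕ) : ∀ d A : ℕ, B - A = d → A ≤ B →
    δ * (((Ico A B).filter (fun x => ∃ h : ℕ, 1 ≤ h ∧ x + h ≤ B ∧
      δ * h < (((Ioc x (x + h)).filter u).card : ℝ))).card : ℝ) ≤ (((Ioc A B).filter u).card : ℝ) := by
  intro d
  induction d using Nat.strong_induction_on with
  | _ d ih =>
    intro A hd hAB
    set bad : ℕ → Prop := fun x => ∃ h : ℕ, 1 ≤ h ∧ x + h ≤ B ∧
      δ * h < (((Ioc x (x + h)).filter u).card : ℝ) with hbad
    rcases Nat.eq_or_lt_of_le hAB with h0 | h0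
    · subst h0
      simp
    by_cases hA : bad A
    · obtain ⟨h, h1, h2, h3⟩ := hA
      have ih' := ih (B - (A + h)) (by omega) (A + h) rfl h2
      have e1 : (Ico A B).filter bad ⊆ Ico A (A + h) ∪ (Ico (A + h) B).filter bad := by
        intro x hx
        rw [Finset.mem_filter, Finset.mem_Ico] at hx
        rw [Finset.mem_union, Finset.mem_Ico, Finset.mem_filter, Finset.mem_Ico]
        by_cases hxh : x < A + h
        · left; exact ⟨hx.1.1, hxh⟩
        · right; exact ⟨⟨by omega, hx.1.2⟩, hx.2⟩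
      have e2 : (((Ico A B).filter bad).card : ℝ) ≤ h + (((Ico (A + h) B).filter bad).card : ℝ) := by
        have := (Finset.card_le_card e1).trans (Finset.card_union_le _ _)
        rw [Nat.card_Ico, Nat.add_sub_cancel_left] at this
        exact_mod_cast this
      have e3 : (((Ioc A (A + h)).filter u).card : ℝ) + (((Ioc (A + h) B).filter u).card : ℝ) =
          (((Ioc A B).filter u).card : ℝ) := by
        have h4 : Disjoint ((Ioc A (A + h)).filter u) ((Ioc (A + h) B).filter u) := by
          rw [Finset.disjoint_left]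
          intro z hz1 hz2
          rw [Finset.mem_filter, Finset.mem_Ioc] at hz1 hz2
          omega
        have h5 : (Ioc A (A + h)).filter u ∪ (Ioc (A + h) B).filter u = (Ioc A B).filter u := by
          rw [← Finset.filter_union, Finset.Ioc_union_Ioc_eq_Ioc (by omega) h2]
        rw [← h5, Finset.card_union_of_disjoint h4]
        push_cast; ring
      calc δ * (((Ico A B).filter bad).card : ℝ) ≤ δ * (h + (((Ico (A + h) B).filter bad).card : ℝ)) :=
            mul_le_mul_of_nonneg_left e2 hδ.le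
        _ = δ * h + δ * (((Ico (A + h) B).filter bad).card : ℝ) := by ring
        _ ≤ _ := by rw [← e3]; exact add_le_add h3.le ih'
    · have ih' := ih (B - (A + 1)) (by omega) (A + 1) rfl (by omega)
      have e1 : (Ico A B).filter bad = (Ico (A + 1) B).filter bad := by
        ext x
        rw [Finset.mem_filter, Finset.mem_Ico, Finset.mem_filter, Finset.mem_Ico]
        constructor
        · rintro ⟨⟨h1, h2⟩, h3⟩
          refine ⟨⟨?_, h2⟩, h3⟩
          rcases Nat.eq_or_lt_of_le h1 with h4 | h4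
          · subst h4; exact absurd h3 hA
          · exact h4
        · rintro ⟨⟨h1, h2⟩, h3⟩
          exact ⟨⟨by omega, h2⟩, h3⟩
      rw [e1]
      refine ih'.trans ?_
      have : (Ioc (A + 1) B).filter u ⊆ (Ioc A B).filter u :=
        Finset.filter_subset_filter _ (Finset.Ioc_subset_Ioc_left (by omega))
      exact_mod_cast Finset.card_le_card this

open Classical in
lemma big_total (P0 : ℕ) (b : ℕ → ℕ) (N : ℕ) (M : ℝ) :
    (((Ioc (PP P0 b 0) (PP P0 b N)).filter (Big P0 b N M)).card : ℝ) ≤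
      ∑ j ∈ (range N).filter (fun j => M < b j), (b j : ℝ) := by
  have h1 : (Ioc (PP P0 b 0) (PP P0 b N)).filter (Big P0 b N M) ⊆
      ((range N).filter (fun j => M < b j)).biUnion (fun j => Ioc (PP P0 b j) (PP P0 b (j + 1))) := by
    intro z hz
    rw [Finset.mem_filter] at hz
    obtain ⟨j, hj, h1, h2, h3⟩ := hz.2
    rw [Finset.mem_biUnion]
    exact ⟨j, Finset.mem_filter.2 ⟨Finset.mem_range.2 hj, h3⟩, Finset.mem_Ioc.2 ⟨h1, h2⟩⟩
  have h2 := (Finset.card_le_card h1).trans Finset.card_biUnion_le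
  have h3 : ∀ j, (Ioc (PP P0 b j) (PP P0 b (j + 1))).card = b j := by
    intro j
    rw [Nat.card_Ioc, PP_succ, Nat.add_sub_cancel_left]
  simp only [h3] at h2
  exact_mod_cast h2

open Classical in
/-- The main deterministic estimate. -/
lemma det (P0 : ℕ) (b : ℕ → ℕ) (N : ℕ) (hb : ∀ j < N, 0 < b j) (M μ δ : ℝ) (k0 : ℕ)
    (hμ : 0 < μ) (hδ : 0 < δ) (hδ4 : δ ≤ 1 / 4) (hk0 : 0 < k0) (hk0N : k0 ≤ N)
    (hw : ∀ s k : ℕ, s + k ≤ N → k0 ≤ k →
      |∑ j ∈ Ico s (s + k), sm b M j - k * μ| ≤ δ * (k * μ))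
    (x : ℕ) (H : ℝ) (hx : P0 ≤ x) (hxH : (x : ℝ) + H ≤ PP P0 b N)
    (hH1 : 2 * (k0 * μ) ≤ H) (hH2 : 6 < H) (hH3 : μ + 1 ≤ δ * H)
    (hgood : ∀ h : ℕ, 1 ≤ h → x + h ≤ PP P0 b N →
      (((Ioc x (x + h)).filter (Big P0 b N M)).card : ℝ) ≤ δ * h) :
    |(((range (N + 1)).filter (fun k => x < PP P0 b k ∧ (PP P0 b k : ℝ) ≤ x + H)).card : ℝ) * μ - H|
      ≤ 4 * δ * H := by
  set P := PP P0 b with hP
  have hPm : Monotone P := PP_mono P0 b
  have hxN : x < P N := by
    have : (x : ℝ) < P N := by linarith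
    exact_mod_cast this
  set i := Nat.findGreatest (fun k => P k ≤ x) N with hi
  have hi0 : P 0 ≤ x := by rw [hP, PP_zero]; exact hx
  have hiN : i ≤ N := Nat.findGreatest_le N
  have hiP : P i ≤ x := Nat.findGreatest_spec (P := fun k => P k ≤ x) (Nat.zero_le N) hi0
  have hiN' : i < N := by
    rcases Nat.eq_or_lt_of_le hiN with h | h
    · rw [h] at hiP; omega
    · exact h
  have hi1 : ∀ k, i < k → k ≤ N → x < P k := by
    intro k hk hkN
    have := Nat.findGreatest_is_greatest (P := fun k => P k ≤ x) hk hkN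
    omega
  set r := Nat.findGreatest (fun k => (P k : ℝ) ≤ x + H) N with hr
  have hr0 : (P 0 : ℝ) ≤ x + H := by
    have : (P 0 : ℝ) ≤ x := by exact_mod_cast hi0
    linarith
  have hrN : r ≤ N := Nat.findGreatest_le N
  have hrP : (P r : ℝ) ≤ x + H :=
    Nat.findGreatest_spec (P := fun k => (P k : ℝ) ≤ x + H) (Nat.zero_le N) hr0
  have hr1 : ∀ k, r < k → k ≤ N → x + H < P k := by
    intro k hk hkN
    have := Nat.findGreatest_is_greatest (P := fun k => (P k : ℝ) ≤ x + H) hk hkN
    exact not_le.1 this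
  have hir : i ≤ r := by
    apply Nat.le_findGreatest hiN
    have : (P i : ℝ) ≤ x := by exact_mod_cast hiP
    linarith
  have hset : (range (N + 1)).filter (fun k => x < P k ∧ (P k : ℝ) ≤ x + H) = Ioc i r := by
    ext k
    rw [Finset.mem_filter, Finset.mem_range, Finset.mem_Ioc]
    constructor
    · rintro ⟨h1, h2, h3⟩
      constructor
      · by_contra h4
        have := hPm (not_lt.1 h4)
        omega
      · by_contra h4
        have := hr1 k (not_le.1 h4) (by omega)
        linarith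
    · rintro ⟨h1, h2⟩
      refine ⟨by omega, hi1 k h1 (by omega), ?_⟩
      have : (P k : ℝ) ≤ P r := by exact_mod_cast hPm h2
      linarith
  rw [hset, Nat.card_Ioc]
  have hm : ((r - i : ℕ) : ℝ) = (r : ℝ) - i := by rw [Nat.cast_sub hir]
  have hHpos : 0 < H := by linarith
  -- upper bound
  have hup : ((r : ℝ) - i - 1) * ((1 - δ) * μ) ≤ H := by
    rcases Nat.lt_or_ge i r with h1 | h1
    · have hs : ∑ j ∈ Ico (i + 1) r, sm b M j ≤ H := by
        have h2 : ∑ j ∈ Ico (i + 1) r, sm b M j ≤ ∑ j ∈ Ico (i + 1) r, (b j : ℝ) :=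
          Finset.sum_le_sum fun j _ => sm_le b M j
        have h3 : (P r : ℝ) = P (i + 1) + ∑ j ∈ Ico (i + 1) r, (b j : ℝ) := by
          have := PP_Ico P0 b (i := i + 1) (j := r) (by omega)
          rw [← hP] at this
          rw [this]; push_cast; ring
        have h4 : (x : ℝ) < P (i + 1) := by exact_mod_cast hi1 (i + 1) (by omega) (by omega)
        linarith
      rcases Nat.lt_or_ge (r - (i + 1)) k0 with h5 | h5
      · have h6 : ((r : ℝ) - i - 1) ≤ k0 := by
          have : ((r - (i + 1) : ℕ) : ℝ) ≤ k0 := by exact_mod_cast h5.le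
          rw [Nat.cast_sub (by omega)] at this
          push_cast at this; linarith
        have h7 : ((r : ℝ) - i - 1) * ((1 - δ) * μ) ≤ k0 * ((1 - δ) * μ) :=
          mul_le_mul_of_nonneg_right h6 (by nlinarith)
        have h8 : (k0 : ℝ) * ((1 - δ) * μ) ≤ k0 * μ := by
          have : (0 : ℝ) ≤ k0 * μ := by positivity
          nlinarith
        nlinarith
      · have h6 := hw (i + 1) (r - (i + 1)) (by omega) h5
        rw [show i + 1 + (r - (i + 1)) = r by omega] at h6
        have h7 := (abs_le.1 h6).1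
        rw [Nat.cast_sub (by omega)] at h7
        push_cast at h7
        nlinarith
    · have h2 : (r : ℝ) ≤ i := by exact_mod_cast h1
      have : ((r : ℝ) - i - 1) * ((1 - δ) * μ) ≤ 0 :=
        mul_nonpos_of_nonpos_of_nonneg (by linarith) (by nlinarith)
      linarith
  -- lower bound
  set r' := min (r + 1) N with hr'
  have hr'N : r' ≤ N := min_le_right _ _
  have hir' : i < r' := by rw [hr']; exact lt_min (by omega) hiN'
  have hr'P : (x : ℝ) + H ≤ P r' := by
    rcases Nat.lt_or_ge r N with h | h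
    · have : r' = r + 1 := by rw [hr']; omega
      rw [this]
      exact (hr1 (r + 1) (by omega) (by omega)).le
    · have : r' = N := by rw [hr']; omega
      rw [this]; exact hxH
  set h := ⌊H⌋₊ with hh
  have hhH : (h : ℝ) ≤ H := Nat.floor_le hHpos.le
  have hhH' : H < h + 1 := Nat.lt_floor_add_one H
  have hh1 : 1 ≤ h := by
    have : (1 : ℝ) ≤ H := by linarith
    exact Nat.le_floor (by simpa using this)
  have hxh : x + h ≤ P N := by
    have : (x : ℝ) + h ≤ P N := by linarith
    exact_mod_cast this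
  have hg := hgood h hh1 hxh
  have hcov : (h : ℝ) ≤ ∑ j ∈ Ico i r', sm b M j + δ * h := by
    have h1 : (Ioc x (x + h)).card = ((Ioc x (x + h)).filter (Big P0 b N M)).card +
        ((Ioc x (x + h)).filter (fun z => ¬ Big P0 b N M z)).card :=
      (Finset.card_filter_add_card_filter_not _).symm
    have h2 : (Ioc x (x + h)).filter (fun z => ¬ Big P0 b N M z) ⊆
        ((Ico i r').filter (fun j => (b j : ℝ) ≤ M)).biUnion (fun j => Ioc (P j) (P (j + 1))) := by
      intro z hz
      rw [Finset.mem_filter, Finset.mem_Ioc] at hz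
      obtain ⟨⟨hz1, hz2⟩, hz3⟩ := hz
      -- the gap of `z`
      set j := Nat.findGreatest (fun k => P k < z) N with hj
      have hj0 : P i < z := by omega
      have hjN : j ≤ N := Nat.findGreatest_le N
      have hij : i ≤ j := Nat.le_findGreatest hiN hj0
      have hjz : P j < z := by
        have := Nat.findGreatest_spec (P := fun k => P k < z) hiN hj0
        exact this
      have hzr : z ≤ P r' := by
        have : (z : ℝ) ≤ P r' := by
          have : (z : ℝ) ≤ x + h := by exact_mod_cast hz2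
          linarith
        exact_mod_cast this
      have hjr' : j < r' := by
        by_contra hc
        have := hPm (not_lt.1 hc)
        omega
      have hz4 : z ≤ P (j + 1) := by
        have := Nat.findGreatest_is_greatest (P := fun k => P k < z) (n := N) (k := j + 1)
          (by omega) (by omega)
        omega
      rw [Finset.mem_biUnion]
      refine ⟨j, Finset.mem_filter.2 ⟨Finset.mem_Ico.2 ⟨hij, hjr'⟩, ?_⟩, Finset.mem_Ioc.2 ⟨hjz, hz4⟩⟩
      by_contra hc
      exact hz3 ⟨j, by omega, hjz, hz4, not_le.1 hc⟩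
    have h3 := (Finset.card_le_card h2).trans Finset.card_biUnion_le
    have h4 : ∀ j, (Ioc (P j) (P (j + 1))).card = b j := by
      intro j
      rw [Nat.card_Ioc, hP, PP_succ, Nat.add_sub_cancel_left]
    simp only [h4] at h3
    have h5 : (∑ j ∈ (Ico i r').filter (fun j => (b j : ℝ) ≤ M), (b j : ℝ)) =
        ∑ j ∈ Ico i r', sm b M j := by
      rw [Finset.sum_filter]
      rfl
    have h6 : (((Ioc x (x + h)).filter (fun z => ¬ Big P0 b N M z)).card : ℝ) ≤
        ∑ j ∈ Ico i r', sm b M j := by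
      rw [← h5]
      exact_mod_cast h3
    rw [Nat.card_Ioc, Nat.add_sub_cancel_left] at h1
    have h7 : (h : ℝ) = (((Ioc x (x + h)).filter (Big P0 b N M)).card : ℝ) +
        (((Ioc x (x + h)).filter (fun z => ¬ Big P0 b N M z)).card : ℝ) := by exact_mod_cast h1
    linarith
  have hlow : (1 - δ) * (H - 1) ≤ ((r : ℝ) - i + 1) * ((1 + δ) * μ) := by
    have hA : (1 - δ) * (H - 1) ≤ ∑ j ∈ Ico i r', sm b M j := by nlinarith
    have hr'r : (r' : ℝ) ≤ r + 1 := by
      have : r' ≤ r + 1 := min_le_left _ _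
      exact_mod_cast this
    rcases Nat.lt_or_ge (r' - i) k0 with h5 | h5
    · -- a window of length `k0` containing `Ico i r'`
      exfalso
      set s := min i (N - k0) with hs
      have hs1 : s + k0 ≤ N := by rw [hs]; omega
      have hsub : Ico i r' ⊆ Ico s (s + k0) := by
        apply Finset.Ico_subset_Ico
        · rw [hs]; omega
        · rw [hs]; omega
      have h6 := hw s k0 hs1 le_rfl
      have h7 : ∑ j ∈ Ico i r', sm b M j ≤ ∑ j ∈ Ico s (s + k0), sm b M j :=
        Finset.sum_le_sum_of_subset_of_nonneg hsub fun j _ _ => sm_nonneg b M j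
      have h8 := (abs_le.1 h6).2
      nlinarith
    · have h6 := hw i (r' - i) (by omega) h5
      rw [show i + (r' - i) = r' by omega] at h6
      have h7 := (abs_le.1 h6).2
      rw [Nat.cast_sub hir'.le] at h7
      have h8 : ((r' : ℝ) - i) * ((1 + δ) * μ) ≤ ((r : ℝ) - i + 1) * ((1 + δ) * μ) :=
        mul_le_mul_of_nonneg_right (by linarith) (by nlinarith)
      nlinarith
  rw [hm, abs_le]
  constructor
  · -- lower
    have h1 : (1 - 2 * δ) * (H - 1) ≤ ((r : ℝ) - i + 1) * μ := by
      have h2 : (1 - δ) * (H - 1) / (1 + δ) ≤ ((r : ℝ) - i + 1) * μ := by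
        rw [div_le_iff₀ (by linarith)]
        calc (1 - δ) * (H - 1) ≤ ((r : ℝ) - i + 1) * ((1 + δ) * μ) := hlow
          _ = _ := by ring
      have h3 : (1 - 2 * δ) * (H - 1) ≤ (1 - δ) * (H - 1) / (1 + δ) := by
        rw [le_div_iff₀ (by linarith)]
        nlinarith [mul_pos hδ (show 0 < H - 1 by linarith), mul_pos (mul_pos hδ hδ) (show 0 < H - 1 by linarith)]
      linarith
    nlinarith
  · -- upper
    have h1 : ((r : ℝ) - i - 1) * μ ≤ (1 + 2 * δ) * H := by
      have h2 : ((r : ℝ) - i - 1) * μ ≤ H / (1 - δ) := by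
        rw [le_div_iff₀ (by linarith)]
        calc ((r : ℝ) - i - 1) * μ * (1 - δ) = ((r : ℝ) - i - 1) * ((1 - δ) * μ) := by ring
          _ ≤ H := hup
      have h3 : H / (1 - δ) ≤ (1 + 2 * δ) * H := by
        rw [div_le_iff₀ (by linarith)]
        nlinarith [mul_pos hδ hHpos, mul_pos (mul_pos hδ hδ) hHpos]
      linarith
    nlinarith

end Pool.Agent.H99.OG
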