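import Mathlib

/-! The gaps between the primes `p_N, …, p_{2N}`, put together in another order. -/

namespace Pool.Agent.H99.OG

/-- The `n`-th prime, counted from `0`. -/
noncomputable def pr (n : ℕ) : ℕ := Nat.nth Nat.Prime n

/-- The gap after the `n`-th prime. -/
noncomputable def gap (n : ℕ) : ℕ := pr (n + 1) - pr n

/-- The points `p_N = pt 0 < pt 1 < ... < pt N = p_{2N}` with the successive distances
`gap (N + σ 0), gap (N + σ 1), …, gap (N + σ (N - 1))`: the gaps between `p_N` and `p_{2N}`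
in the order `σ`. For the identity `σ = 1` the points are the primes `p_N, …, p_{2N}`. -/
noncomputable def pt (N : ℕ) (σ : Equiv.Perm (Fin N)) (k : ℕ) : ℕ :=
  pr N + ∑ i ∈ Finset.univ.filter (fun i : Fin N => (i : ℕ) < k), gap (N + (σ i : ℕ))

open Classical in
/-- The number of points in `(x, x + H]`. -/
noncomputable def cnt (N : ℕ) (σ : Equiv.Perm (Fin N)) (x : ℕ) (H : ℝ) : ℕ :=
  ((Finset.range (N + 1)).filter
    (fun k => x < pt N σ k ∧ (pt N σ k : ℝ) ≤ x + H)).card

/-- All intervals `(x, x + H]`, `H ≥ H₀`, that end before `p_{2N}` contain the expected number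
`H / log x` of points, up to a factor between `1 - δ` and `1 + δ`. -/
def Reg (N : ℕ) (σ : Equiv.Perm (Fin N)) (H₀ δ : ℝ) (x : ℕ) : Prop :=
  ∀ H : ℝ, H₀ ≤ H → (x : ℝ) + H ≤ pr (2 * N) → |cnt N σ x H * Real.log x / H - 1| ≤ δ

end Pool.Agent.H99.OG
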