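import Pool.Graph.R_seed8.Helper923.PNT
import Pool.Agent.H99.OG.Defs

/-! Consequences of the prime number theorem for the `n`-th prime. -/

open Filter Topology

namespace Pool.Agent.H99.OG

lemma pr_prime (n : ℕ) : (pr n).Prime := Nat.prime_nth_prime n

lemma pr_strictMono : StrictMono pr := Nat.nth_strictMono Nat.infinite_setOfPred_prime

lemma pr_tendsto : Tendsto pr atTop atTop := pr_strictMono.tendsto_atTop

lemma pr_two_le (n : ℕ) : 2 ≤ pr n := (pr_prime n).two_le

lemma lt_pr (n : ℕ) : n < pr n := by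
  have h1 : n ≤ pr n := pr_strictMono.id_le n
  rcases Nat.eq_or_lt_of_le h1 with h | h
  · have h2 := pr_two_le 0
    have h3 : ∀ m, m + 2 ≤ pr m := by
      intro m
      induction m with
      | zero => exact h2
      | succ m ih => have := pr_strictMono (Nat.lt_add_one m); omega
    have := h3 n
    omega
  · exact h

lemma pi_pr (n : ℕ) : Nat.primeCounting (pr n) = n + 1 := by
  unfold Nat.primeCounting Nat.primeCounting' pr
  rw [Nat.count_succ, Nat.count_nth_of_infinite Nat.infinite_setOfPred_prime,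
    if_pos (Nat.prime_nth_prime n)]

lemma prR_tendsto : Tendsto (fun n => (pr n : ℝ)) atTop atTop :=
  tendsto_natCast_atTop_atTop.comp pr_tendsto

lemma log_pr_tendsto : Tendsto (fun n => Real.log (pr n)) atTop atTop :=
  Real.tendsto_log_atTop.comp prR_tendsto

lemma log_pr_pos (n : ℕ) : 0 < Real.log (pr n) :=
  Real.log_pos (by exact_mod_cast (pr_two_le n))

lemma pr_pos (n : ℕ) : (0 : ℝ) < pr n := by exact_mod_cast (pr_prime n).pos

lemma ratio1 : Tendsto (fun n : ℕ => ((n : ℝ) + 1) * Real.log (pr n) / pr n) atTop (𝓝 1) := by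
  have h := Pool.Agent.Helper923.PNT.pi_tendsto.comp prR_tendsto
  refine h.congr fun n => ?_
  simp only [Function.comp, Nat.floor_natCast, pi_pr]
  push_cast
  ring

lemma ratio1' : Tendsto (fun n : ℕ => (pr n : ℝ) / (((n : ℝ) + 1) * Real.log (pr n))) atTop (𝓝 1) := by
  have h := ratio1.inv₀ one_ne_zero
  rw [inv_one] at h
  refine h.congr fun n => ?_
  rw [inv_div]

lemma loglog : Tendsto (fun x : ℝ => Real.log x / x) atTop (𝓝 0) := by
  have := Real.isLittleO_log_id_atTop
  exact this.tendsto_div_nhds_zero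

lemma log_ratio : Tendsto (fun n : ℕ => Real.log ((n : ℝ) + 1) / Real.log (pr n)) atTop (𝓝 1) := by
  have h1 : Tendsto (fun n : ℕ => Real.log (((n : ℝ) + 1) * Real.log (pr n) / pr n)) atTop (𝓝 0) := by
    have := (Real.continuousAt_log one_ne_zero).tendsto.comp ratio1
    rw [Real.log_one] at this
    exact this
  have h2 : Tendsto (fun n : ℕ => Real.log (((n : ℝ) + 1) * Real.log (pr n) / pr n) /
      Real.log (pr n)) atTop (𝓝 0) := by
    have := h1.mul (tendsto_inv_atTop_zero.comp log_pr_tendsto)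
    rw [zero_mul] at this
    refine this.congr fun n => ?_
    simp [div_eq_mul_inv]
  have h3 : Tendsto (fun n : ℕ => Real.log (Real.log (pr n)) / Real.log (pr n)) atTop (𝓝 0) :=
    loglog.comp log_pr_tendsto
  have h4 := (h2.sub h3).add_const 1
  rw [sub_zero, zero_add] at h4
  refine h4.congr fun n => ?_
  have hl := log_pr_pos n
  have hp := pr_pos n
  have hn : (0 : ℝ) < (n : ℝ) + 1 := by positivity
  rw [Real.log_div (by positivity) (by positivity), Real.log_mul (by positivity) (by positivity)]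
  field_simp
  ring

lemma two_tendsto : Tendsto (fun n : ℕ => 2 * n) atTop atTop :=
  tendsto_id.const_mul_atTop' (by norm_num : 0 < 2)

lemma log_two_ratio : Tendsto (fun n : ℕ => Real.log (2 * (n : ℝ) + 1) / Real.log ((n : ℝ) + 1))
    atTop (𝓝 1) := by
  have hl : Tendsto (fun n : ℕ => Real.log ((n : ℝ) + 1)) atTop atTop :=
    Real.tendsto_log_atTop.comp (tendsto_atTop_add_const_right _ _ tendsto_natCast_atTop_atTop)
  have h0 : Tendsto (fun n : ℕ => 1 + Real.log 2 * (Real.log ((n : ℝ) + 1))⁻¹) atTop (𝓝 1) := by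
    have := ((tendsto_inv_atTop_zero.comp hl).const_mul (Real.log 2)).const_add 1
    simpa using this
  refine tendsto_of_tendsto_of_tendsto_of_le_of_le' tendsto_const_nhds h0 ?_ ?_
  · filter_upwards [eventually_gt_atTop 0] with n hn
    have hn' : (1 : ℝ) ≤ n := by exact_mod_cast hn
    have h1 : 0 < Real.log ((n : ℝ) + 1) := Real.log_pos (by linarith)
    rw [le_div_iff₀ h1, one_mul]
    exact Real.log_le_log (by linarith) (by linarith)
  · filter_upwards [eventually_gt_atTop 0] with n hn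
    have hn' : (1 : ℝ) ≤ n := by exact_mod_cast hn
    have h1 : 0 < Real.log ((n : ℝ) + 1) := Real.log_pos (by linarith)
    have h2 : Real.log 2 + Real.log ((n : ℝ) + 1) = Real.log (2 * ((n : ℝ) + 1)) :=
      (Real.log_mul two_ne_zero (by positivity)).symm
    have h3 : Real.log (2 * (n : ℝ) + 1) ≤ Real.log (2 * ((n : ℝ) + 1)) :=
      Real.log_le_log (by linarith) (by linarith)
    rw [div_le_iff₀ h1, add_mul, one_mul, mul_assoc, inv_mul_cancel₀ h1.ne', mul_one]
    linarith

lemma log_pr_two : Tendsto (fun n : ℕ => Real.log (pr (2 * n)) / Real.log (pr n)) atTop (𝓝 1) := by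
  have h1 := (log_ratio.comp two_tendsto).inv₀ one_ne_zero
  have h2 := (h1.mul log_two_ratio).mul log_ratio
  rw [inv_one, one_mul, one_mul] at h2
  refine h2.congr' ?_
  filter_upwards [eventually_gt_atTop 0] with n hn
  have hn' : (1 : ℝ) ≤ n := by exact_mod_cast hn
  have h3 : 0 < Real.log ((n : ℝ) + 1) := Real.log_pos (by linarith)
  have h4 : 0 < Real.log (2 * (n : ℝ) + 1) := Real.log_pos (by linarith)
  have h5 := log_pr_pos n
  have h6 := log_pr_pos (2 * n)
  simp only [Function.comp, Nat.cast_mul, Nat.cast_ofNat]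
  field_simp

/-- the mean gap of the block -/
noncomputable def mean (N : ℕ) : ℝ := ((pr (2 * N) : ℝ) - pr N) / N

lemma mean_ratio : Tendsto (fun n : ℕ => mean n / Real.log (pr n)) atTop (𝓝 1) := by
  have h1 := ratio1'.comp two_tendsto
  have hinv : Tendsto (fun n : ℕ => ((n : ℝ))⁻¹) atTop (𝓝 0) := tendsto_inv_atTop_nhds_zero_nat
  have h2 : Tendsto (fun n : ℕ => 2 + ((n : ℝ))⁻¹) atTop (𝓝 2) := by
    simpa using hinv.const_add 2
  have h3 : Tendsto (fun n : ℕ => 1 + ((n : ℝ))⁻¹) atTop (𝓝 1) := by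
    simpa using hinv.const_add 1
  have h4 := ((h1.mul h2).mul log_pr_two).sub (ratio1'.mul h3)
  have e : (1 : ℝ) * 2 * 1 - 1 * 1 = 1 := by norm_num
  rw [e] at h4
  refine h4.congr' ?_
  filter_upwards [eventually_gt_atTop 0] with n hn
  have hn' : (0 : ℝ) < n := by exact_mod_cast hn
  have h5 := log_pr_pos n
  have h6 := log_pr_pos (2 * n)
  unfold mean
  simp only [Function.comp, Nat.cast_mul, Nat.cast_ofNat]
  field_simp

lemma pr_ratio : Tendsto (fun n : ℕ => (pr n : ℝ) / ((n : ℝ) * Real.log (pr n))) atTop (𝓝 1) := by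
  have hinv : Tendsto (fun n : ℕ => ((n : ℝ))⁻¹) atTop (𝓝 0) := tendsto_inv_atTop_nhds_zero_nat
  have h3 : Tendsto (fun n : ℕ => 1 + ((n : ℝ))⁻¹) atTop (𝓝 1) := by
    simpa using hinv.const_add 1
  have h4 := ratio1'.mul h3
  rw [one_mul] at h4
  refine h4.congr' ?_
  filter_upwards [eventually_gt_atTop 0] with n hn
  have hn' : (0 : ℝ) < n := by exact_mod_cast hn
  have h5 := log_pr_pos n
  field_simp

lemma pr_two_ratio : Tendsto (fun n : ℕ => (pr (2 * n) : ℝ) / pr n) atTop (𝓝 2) := by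
  have h1 := (pr_ratio.comp two_tendsto)
  have h2 := (h1.mul log_pr_two).mul (pr_ratio.inv₀ one_ne_zero)
  have h3 := h2.const_mul 2
  have e : (2 : ℝ) * (1 * 1 * 1⁻¹) = 2 := by norm_num
  rw [e] at h3
  refine h3.congr' ?_
  filter_upwards [eventually_gt_atTop 0] with n hn
  have hn' : (0 : ℝ) < n := by exact_mod_cast hn
  have h5 := log_pr_pos n
  have h6 := log_pr_pos (2 * n)
  have h7 := pr_pos n
  simp only [Function.comp, Nat.cast_mul, Nat.cast_ofNat]
  field_simp

/-- All that is used of the prime number theorem. -/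
lemma facts (η : ℝ) (hη : 0 < η) : ∀ᶠ N : ℕ in atTop,
    |mean N - Real.log (pr N)| ≤ η * Real.log (pr N) ∧
    Real.log (pr (2 * N)) ≤ (1 + η) * Real.log (pr N) ∧
    (pr N : ℝ) ≤ 2 * (N * Real.log (pr N)) ∧ (pr (2 * N) : ℝ) ≤ 3 * pr N ∧ 0 < N := by
  have h1 := (Metric.tendsto_nhds.1 mean_ratio) η hη
  have h2 := (Metric.tendsto_nhds.1 log_pr_two) η hη
  have h3 := (Metric.tendsto_nhds.1 pr_ratio) 1 one_pos
  have h4 := (Metric.tendsto_nhds.1 pr_two_ratio) 1 one_pos
  filter_upwards [h1, h2, h3, h4, eventually_gt_atTop 0] with N h1 h2 h3 h4 h5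
  rw [Real.dist_eq] at h1 h2 h3 h4
  have hl := log_pr_pos N
  have hN : (0 : ℝ) < N := by exact_mod_cast h5
  have hp := pr_pos N
  refine ⟨?_, ?_, ?_, ?_, h5⟩
  · have : mean N - Real.log (pr N) = (mean N / Real.log (pr N) - 1) * Real.log (pr N) := by
      field_simp
    rw [this, abs_mul, abs_of_pos hl]
    exact mul_le_mul_of_nonneg_right h1.le hl.le
  · have := (abs_lt.1 h2).2
    have h6 : Real.log (pr (2 * N)) / Real.log (pr N) ≤ 1 + η := by linarith
    rwa [div_le_iff₀ hl] at h6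
  · have := (abs_lt.1 h3).2
    have h6 : (pr N : ℝ) / (N * Real.log (pr N)) ≤ 2 := by linarith
    rwa [div_le_iff₀ (by positivity)] at h6
  · have := (abs_lt.1 h4).2
    have h6 : (pr (2 * N) : ℝ) / pr N ≤ 3 := by linarith
    rwa [div_le_iff₀ hp] at h6

end Pool.Agent.H99.OG
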