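import Pool.Agent.H99.OG.Conc
import Pool.Agent.H99.OG.Det
import Pool.Agent.H99.OG.Pnt

/-! Almost all orders of the gaps are regular off the long gaps. -/

open Finset

namespace Pool.Agent.H99.OG

lemma gap_pos (n : ℕ) : 0 < gap n := by
  have := pr_strictMono (Nat.lt_add_one n)
  unfold gap; omega

lemma gap_cast (n : ℕ) : (gap n : ℝ) = pr (n + 1) - pr n := by
  have := pr_strictMono (Nat.lt_add_one n)
  unfold gap
  rw [Nat.cast_sub this.le]

/-- the gap at position `j` in the order `σ` -/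
noncomputable def bf (N : ℕ) (σ : Equiv.Perm (Fin N)) (j : ℕ) : ℕ :=
  if h : j < N then gap (N + (σ ⟨j, h⟩ : ℕ)) else 0

lemma bf_pos (N : ℕ) (σ : Equiv.Perm (Fin N)) (j : ℕ) (h : j < N) : 0 < bf N σ j := by
  unfold bf; rw [dif_pos h]; exact gap_pos _

lemma bf_fin (N : ℕ) (σ : Equiv.Perm (Fin N)) (i : Fin N) : bf N σ i = gap (N + (σ i : ℕ)) := by
  unfold bf; rw [dif_pos i.2]

lemma sum_fin_filter {M : Type*} [AddCommMonoid M] (N : ℕ) (F : ℕ → M) (p : ℕ → Prop) [DecidablePred p]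
    (S : Finset ℕ) (hS : ∀ j, j ∈ S ↔ j < N ∧ p j) :
    ∑ i ∈ (univ : Finset (Fin N)).filter (fun i : Fin N => p (i : ℕ)), F (i : ℕ) = ∑ j ∈ S, F j := by
  rw [Finset.sum_filter, Fin.sum_univ_eq_sum_range (fun j => if p j then F j else 0) N,
    ← Finset.sum_filter]
  refine Finset.sum_congr ?_ fun _ _ => rfl
  ext j
  rw [Finset.mem_filter, Finset.mem_range, hS]

lemma pt_eq (N : ℕ) (σ : Equiv.Perm (Fin N)) (k : ℕ) : pt N σ k = PP (pr N) (bf N σ) k := by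
  unfold pt PP
  congr 1
  have h1 : ∑ i ∈ univ.filter (fun i : Fin N => (i : ℕ) < k), gap (N + (σ i : ℕ)) =
      ∑ i ∈ univ.filter (fun i : Fin N => (i : ℕ) < k), bf N σ i :=
    Finset.sum_congr rfl fun i _ => (bf_fin N σ i).symm
  rw [h1, sum_fin_filter N (bf N σ) (fun j => j < k) ((range k).filter (fun j => j < N))
    (fun j => by rw [Finset.mem_filter, Finset.mem_range]; tauto)]
  rw [Finset.sum_filter]
  refine Finset.sum_congr rfl fun j _ => ?_
  split_ifs with h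
  · rfl
  · unfold bf; rw [dif_neg h]

lemma sum_perm (N : ℕ) (σ : Equiv.Perm (Fin N)) (F : ℕ → ℝ) :
    ∑ i : Fin N, F (N + (σ i : ℕ)) = ∑ n ∈ Ico N (2 * N), F n := by
  rw [Equiv.sum_comp σ (fun i : Fin N => F (N + (i : ℕ))),
    Fin.sum_univ_eq_sum_range (fun j => F (N + j)) N, Finset.sum_Ico_eq_sum_range]
  rw [show 2 * N - N = N by omega]

lemma sum_gap {a b : ℕ} (h : a ≤ b) : ∑ n ∈ Ico a b, (gap n : ℝ) = pr b - pr a := by
  simp only [gap_cast]
  rw [Finset.sum_Ico_eq_sub _ h, Finset.sum_range_sub (fun n => (pr n : ℝ)),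
    Finset.sum_range_sub (fun n => (pr n : ℝ))]
  ring

lemma sum_bf (N : ℕ) (σ : Equiv.Perm (Fin N)) (G : ℝ → ℝ) :
    ∑ j ∈ range N, G (bf N σ j) = ∑ n ∈ Ico N (2 * N), G (gap n) := by
  rw [← sum_perm N σ (fun n => G (gap n)), ← Fin.sum_univ_eq_sum_range (fun j => G (bf N σ j)) N]
  exact Finset.sum_congr rfl fun i _ => by rw [bf_fin]

lemma PP_N (N : ℕ) (σ : Equiv.Perm (Fin N)) : PP (pr N) (bf N σ) N = pr (2 * N) := by
  have h1 := sum_bf N σ id
  simp only [id] at h1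
  rw [sum_gap (by omega)] at h1
  have h2 : ((PP (pr N) (bf N σ) N : ℕ) : ℝ) = pr (2 * N) := by
    unfold PP
    push_cast
    linarith
  exact_mod_cast h2

open Classical in
/-- the total length of the gaps longer than `M` in the block -/
noncomputable def TB (N : ℕ) (M : ℝ) : ℝ :=
  ∑ n ∈ (Ico N (2 * N)).filter (fun n => M < gap n), (gap n : ℝ)

lemma TB_nonneg (N : ℕ) (M : ℝ) : 0 ≤ TB N M :=
  Finset.sum_nonneg fun _ _ => Nat.cast_nonneg _

open Classical in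
lemma TB_bf (N : ℕ) (σ : Equiv.Perm (Fin N)) (M : ℝ) :
    ∑ j ∈ (range N).filter (fun j => M < bf N σ j), (bf N σ j : ℝ) = TB N M := by
  unfold TB
  rw [Finset.sum_filter, Finset.sum_filter]
  exact sum_bf N σ (fun y => if M < y then y else 0)

/-- the short gaps -/
noncomputable def aa (N : ℕ) (M : ℝ) (i : Fin N) : ℝ :=
  if (gap (N + (i : ℕ)) : ℝ) ≤ M then (gap (N + (i : ℕ)) : ℝ) else 0

lemma aa_bd (N : ℕ) (M : ℝ) (hM : 0 < M) (i : Fin N) : 0 ≤ aa N M i ∧ aa N M i ≤ M := by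
  unfold aa
  split_ifs with h
  · exact ⟨Nat.cast_nonneg _, h⟩
  · exact ⟨le_rfl, hM.le⟩

lemma aa_sum (N : ℕ) (M : ℝ) : ∑ i, aa N M i = pr (2 * N) - pr N - TB N M := by
  classical
  have h1 : ∑ i, aa N M i = ∑ n ∈ Ico N (2 * N), (if (gap n : ℝ) ≤ M then (gap n : ℝ) else 0) := by
    have := sum_perm N 1 (fun n => if (gap n : ℝ) ≤ M then (gap n : ℝ) else 0)
    rw [← this]
    rfl
  have h2 : ∑ n ∈ Ico N (2 * N), (gap n : ℝ) = pr (2 * N) - pr N := sum_gap (by omega)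
  rw [h1, ← h2]
  unfold TB
  rw [Finset.sum_filter, ← Finset.sum_sub_distrib]
  refine Finset.sum_congr rfl fun n _ => ?_
  by_cases h : (gap n : ℝ) ≤ M
  · rw [if_pos h, if_neg (not_lt.2 h), sub_zero]
  · rw [if_neg h, if_pos (not_le.1 h), sub_self]

/-- the positions of a window -/
def WW (N s k : ℕ) : Finset (Fin N) := univ.filter (fun i : Fin N => s ≤ (i : ℕ) ∧ (i : ℕ) < s + k)

lemma WW_sum (N s k : ℕ) (h : s + k ≤ N) (σ : Equiv.Perm (Fin N)) (M : ℝ) :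
    ∑ i ∈ WW N s k, aa N M (σ i) = ∑ j ∈ Ico s (s + k), sm (bf N σ) M j := by
  unfold WW
  rw [← sum_fin_filter N (sm (bf N σ) M) (fun j => s ≤ j ∧ j < s + k) (Ico s (s + k))
    (fun j => by rw [Finset.mem_Ico]; constructor <;> intro h' <;> [exact ⟨by omega, h'⟩; exact h'.2])]
  refine Finset.sum_congr rfl fun i _ => ?_
  unfold sm aa
  rw [bf_fin]

lemma WW_card (N s k : ℕ) (h : s + k ≤ N) : (WW N s k).card = k := by
  have h1 := sum_fin_filter (M := ℕ) N (fun _ => 1) (fun j => s ≤ j ∧ j < s + k) (Ico s (s + k))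
    (fun j => by rw [Finset.mem_Ico]; constructor <;> intro h' <;> [exact ⟨by omega, h'⟩; exact h'.2])
  rw [Finset.sum_const, Finset.sum_const, smul_eq_mul, smul_eq_mul, mul_one, mul_one,
    Nat.card_Ico, Nat.add_sub_cancel_left] at h1
  exact h1

/-- The windows are regular. -/
def Win (N : ℕ) (M μ δ : ℝ) (k0 : ℕ) (σ : Equiv.Perm (Fin N)) : Prop :=
  ∀ s k : ℕ, s + k ≤ N → k0 ≤ k →
      |∑ j ∈ Ico s (s + k), sm (bf N σ) M j - k * μ| ≤ δ * (k * μ)

lemma not_win_card (N : ℕ) (hN : 0 < N) (M δ : ℝ) (hM : 0 < M) (hδ : 0 < δ) (hδ1 : δ ≤ 1) (k0 : ℕ)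
    (hμ : 0 ≤ (∑ i, aa N M i) / N) :
    (({σ : Equiv.Perm (Fin N) | ¬ Win N M ((∑ i, aa N M i) / N) δ k0 σ}.ncard : ℕ) : ℝ) ≤
      2 * ((N : ℝ) + 1) ^ 2 * (N.factorial *
        Real.exp (-(δ ^ 2 * (k0 * ((∑ i, aa N M i) / N)) / (4 * M)))) := by
  classical
  set μ := (∑ i, aa N M i) / N with hμ'
  set E := (N.factorial : ℝ) * Real.exp (-(δ ^ 2 * (k0 * μ) / (4 * M))) with hE
  have hE0 : 0 ≤ E := by positivity
  have hsub : {σ : Equiv.Perm (Fin N) | ¬ Win N M μ δ k0 σ} ⊆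
      (((range (N + 1) ×ˢ range (N + 1)).filter (fun q => q.1 + q.2 ≤ N ∧ k0 ≤ q.2)).biUnion
        (fun q => (univ : Finset (Equiv.Perm (Fin N))).filter (fun σ =>
          δ * ((WW N q.1 q.2).card * μ) ≤
            |∑ i ∈ WW N q.1 q.2, aa N M (σ i) - (WW N q.1 q.2).card * μ|)) :
              Finset (Equiv.Perm (Fin N))) := by
    intro σ hσ
    rw [Set.mem_ofPred_eq] at hσ
    unfold Win at hσ
    push Not at hσ
    obtain ⟨s, k, h1, h2, h3⟩ := hσ
    rw [Finset.mem_coe, Finset.mem_biUnion]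
    refine ⟨(s, k), Finset.mem_filter.2 ⟨Finset.mem_product.2 ⟨Finset.mem_range.2 (by
      show s < N + 1; omega), Finset.mem_range.2 (by show k < N + 1; omega)⟩, h1, h2⟩, ?_⟩
    rw [Finset.mem_filter]
    refine ⟨Finset.mem_univ _, ?_⟩
    rw [WW_card N s k h1, WW_sum N s k h1]
    exact h3.le
  have h1 := Set.ncard_le_ncard hsub (Finset.finite_toSet _)
  rw [Set.ncard_coe_finset] at h1
  have h2 := h1.trans Finset.card_biUnion_le
  have h3 : (({σ : Equiv.Perm (Fin N) | ¬ Win N M μ δ k0 σ}.ncard : ℕ) : ℝ) ≤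
      ∑ q ∈ (range (N + 1) ×ˢ range (N + 1)).filter (fun q => q.1 + q.2 ≤ N ∧ k0 ≤ q.2), 2 * E := by
    refine (show _ ≤ ((∑ q ∈ (range (N + 1) ×ˢ range (N + 1)).filter
      (fun q => q.1 + q.2 ≤ N ∧ k0 ≤ q.2), ((univ : Finset (Equiv.Perm (Fin N))).filter (fun σ =>
          δ * ((WW N q.1 q.2).card * μ) ≤
            |∑ i ∈ WW N q.1 q.2, aa N M (σ i) - (WW N q.1 q.2).card * μ|)).card : ℕ) : ℝ) from
      by exact_mod_cast h2).trans ?_
    rw [Nat.cast_sum]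
    refine Finset.sum_le_sum fun q hq => ?_
    rw [Finset.mem_filter] at hq
    refine (conc hN (aa N M) M δ hM hδ hδ1 (aa_bd N M hM) (WW N q.1 q.2)).trans ?_
    rw [← hμ', WW_card N q.1 q.2 hq.2.1, hE]
    have h5 : (k0 : ℝ) * μ ≤ q.2 * μ :=
      mul_le_mul_of_nonneg_right (by exact_mod_cast hq.2.2) hμ
    have h6 : Real.exp (-(δ ^ 2 * (q.2 * μ) / (4 * M))) ≤ Real.exp (-(δ ^ 2 * (k0 * μ) / (4 * M))) := by
      apply Real.exp_le_exp.2
      apply neg_le_neg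
      apply div_le_div_of_nonneg_right _ (by positivity)
      exact mul_le_mul_of_nonneg_left h5 (by positivity)
    have h7 : (0 : ℝ) ≤ N.factorial := Nat.cast_nonneg _
    nlinarith [mul_le_mul_of_nonneg_left h6 h7]
  refine h3.trans ?_
  rw [Finset.sum_const, nsmul_eq_mul]
  have h4 : (((range (N + 1) ×ˢ range (N + 1)).filter
      (fun q => q.1 + q.2 ≤ N ∧ k0 ≤ q.2)).card : ℝ) ≤ ((N : ℝ) + 1) ^ 2 := by
    have := Finset.card_filter_le (range (N + 1) ×ˢ range (N + 1))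
      (fun q => q.1 + q.2 ≤ N ∧ k0 ≤ q.2)
    rw [Finset.card_product, Finset.card_range] at this
    have h5 : (((range (N + 1) ×ˢ range (N + 1)).filter
      (fun q => q.1 + q.2 ≤ N ∧ k0 ≤ q.2)).card : ℝ) ≤ (((N + 1) * (N + 1) : ℕ) : ℝ) := by
      exact_mod_cast this
    push_cast at h5
    linarith [sq ((N : ℝ) + 1)]
  calc _ ≤ ((N : ℝ) + 1) ^ 2 * (2 * E) := mul_le_mul_of_nonneg_right h4 (by positivity)
    _ = _ := by ring

end Pool.Agent.H99.OG
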