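import Pool.Agent.H99.OG.Core

/-! The main estimate: off an exponentially small set of orders, the irregular points have total
measure at most a constant times the total length of the long gaps. -/

open Finset Filter

namespace Pool.Agent.H99.OG

lemma cnt_eq (N : ℕ) (σ : Equiv.Perm (Fin N)) (x : ℕ) (H : ℝ) [DecidablePred (fun k : ℕ =>
      x < PP (pr N) (bf N σ) k ∧ (PP (pr N) (bf N σ) k : ℝ) ≤ x + H)] :
    cnt N σ x H = ((range (N + 1)).filter (fun k =>
      x < PP (pr N) (bf N σ) k ∧ (PP (pr N) (bf N σ) k : ℝ) ≤ x + H)).card := by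
  unfold cnt
  simp only [pt_eq]

open Classical in
/-- the irregular points -/
noncomputable def irr (N : ℕ) (σ : Equiv.Perm (Fin N)) (H₀ δ : ℝ) : Finset ℕ :=
  (Ico (pr N) (pr (2 * N))).filter (fun x => ¬ Reg N σ H₀ δ x)

open Classical in
lemma reg_of_win (N : ℕ) (σ : Equiv.Perm (Fin N)) (M μ δ H0 : ℝ) (k0 : ℕ)
    (h1 : |μ - Real.log (pr N)| ≤ δ * Real.log (pr N))
    (h2 : Real.log (pr (2 * N)) ≤ (1 + δ / 2) * Real.log (pr N))
    (hδ : 0 < δ) (hδ1 : δ ≤ 1 / 16) (hk0 : 0 < k0) (hk0N : k0 ≤ N) (hk0H : 2 * (k0 * μ) ≤ H0)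
    (hH2 : 6 < H0) (hH3 : μ + 1 ≤ δ * H0) (hw : Win N M μ δ k0 σ) (x : ℕ) (hx : pr N ≤ x)
    (hgood : ∀ h : ℕ, 1 ≤ h → x + h ≤ pr (2 * N) →
      (((Ioc x (x + h)).filter (Big (pr N) (bf N σ) N M)).card : ℝ) ≤ δ * h) :
    Reg N σ H0 (16 * δ) x := by
  intro H hH hxH
  have hL := log_pr_pos N
  set L := Real.log (pr N) with hLdef
  have hμ1 := (abs_le.1 h1).1
  have hμ2 := (abs_le.1 h1).2
  have hμ : 0 < μ := by nlinarith
  have hd := det (pr N) (bf N σ) N (bf_pos N σ) M μ δ k0 hμ hδ (by linarith) hk0 hk0N hw x H hx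
    (by rw [PP_N]; exact hxH) (by linarith) (by linarith) (by nlinarith)
    (by rw [PP_N]; exact hgood)
  rw [← cnt_eq N σ x H] at hd
  set C : ℝ := (cnt N σ x H : ℝ) with hC
  have hC0 : 0 ≤ C := Nat.cast_nonneg _
  have hH0 : 0 < H := by linarith
  have hxpos : (0 : ℝ) < x := lt_of_lt_of_le (pr_pos N) (by exact_mod_cast hx)
  have hl1 : L ≤ Real.log x := Real.log_le_log (pr_pos N) (by exact_mod_cast hx)
  have hl2 : Real.log x ≤ (1 + δ / 2) * L := (Real.log_le_log hxpos (by linarith)).trans h2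
  set l := Real.log x with hl
  have hd1 := (abs_le.1 hd).1
  have hd2 := (abs_le.1 hd).2
  have key : |C * l - H| ≤ 16 * δ * H := by
    rw [abs_le]
    constructor
    · -- lower
      have e1 : C * μ ≤ C * ((1 + δ) * l) := by
        apply mul_le_mul_of_nonneg_left _ hC0
        nlinarith
      have e2 : (1 - 4 * δ) * H ≤ (1 + δ) * (C * l) := by nlinarith
      have e3 : (1 - 16 * δ) * (1 + δ) * H ≤ (1 - 4 * δ) * H := by
        apply mul_le_mul_of_nonneg_right _ hH0.le
        nlinarith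
      have e4 : (1 + δ) * ((1 - 16 * δ) * H) ≤ (1 + δ) * (C * l) := by nlinarith
      have e5 : (1 - 16 * δ) * H ≤ C * l := le_of_mul_le_mul_left e4 (by linarith)
      linarith
    · -- upper
      have e1 : C * l ≤ C * ((1 + 2 * δ) * μ) := by
        apply mul_le_mul_of_nonneg_left _ hC0
        have e0 : (1 + δ / 2) * L ≤ (1 + 2 * δ) * ((1 - δ) * L) := by
          have : (1 + δ / 2) ≤ (1 + 2 * δ) * (1 - δ) := by nlinarith
          nlinarith
        have e00 : (1 + 2 * δ) * ((1 - δ) * L) ≤ (1 + 2 * δ) * μ := by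
          apply mul_le_mul_of_nonneg_left _ (by linarith)
          linarith
        linarith
      have e2 : C * ((1 + 2 * δ) * μ) ≤ (1 + 2 * δ) * ((1 + 4 * δ) * H) := by
        have : C * μ ≤ (1 + 4 * δ) * H := by linarith
        calc C * ((1 + 2 * δ) * μ) = (1 + 2 * δ) * (C * μ) := by ring
          _ ≤ _ := mul_le_mul_of_nonneg_left this (by linarith)
      have e3 : (1 + 2 * δ) * ((1 + 4 * δ) * H) ≤ (1 + 16 * δ) * H := by
        have : (1 + 2 * δ) * (1 + 4 * δ) ≤ 1 + 16 * δ := by nlinarith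
        nlinarith
      linarith
  have e : C * l / H - 1 = (C * l - H) / H := by field_simp
  rw [e, abs_div, abs_of_pos hH0, div_le_iff₀ hH0]
  exact key

open Classical in
lemma core (δ : ℝ) (hδ : 0 < δ) (hδ1 : δ ≤ 1) : ∃ δ2 > 0, ∀ᶠ N : ℕ in atTop, ∀ M > 0, ∀ H0 : ℝ,
    Real.log (pr N) ^ 2 ≤ H0 → TB N M ≤ δ2 * pr N →
    (({σ : Equiv.Perm (Fin N) | ¬ (δ / 16 * (irr N σ H0 δ).card ≤ TB N M)}.ncard : ℕ) : ℝ) ≤
      2 * ((N : ℝ) + 1) ^ 2 * (N.factorial * Real.exp (-((δ / 16) ^ 2 * H0 / (16 * M)))) := by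
  set d := δ / 16 with hd
  have hd0 : 0 < d := by positivity
  have hd1 : d ≤ 1 / 16 := by rw [hd]; linarith
  refine ⟨d / 4, by positivity, ?_⟩
  have hlog := log_pr_tendsto.eventually_ge_atTop (16 / d)
  filter_upwards [facts (d / 2) (by positivity), hlog] with N hf hlogN M hM H0 hH0 hTB
  obtain ⟨f1, f2, f3, f4, hN⟩ := hf
  have hL := log_pr_pos N
  set L := Real.log (pr N) with hLdef
  have hN' : (0 : ℝ) < N := by exact_mod_cast hN
  set μ := (∑ i, aa N M i) / N with hμdef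
  have hdL : 16 ≤ d * L := by
    rw [div_le_iff₀ hd0] at hlogN
    linarith
  have hL16 : 16 ≤ L := by nlinarith
  have hμmean : μ = mean N - TB N M / N := by
    rw [hμdef, aa_sum]; unfold mean; ring
  have hTBN : TB N M / N ≤ d / 2 * L := by
    rw [div_le_iff₀ hN']
    calc TB N M ≤ d / 4 * pr N := hTB
      _ ≤ d / 4 * (2 * (N * L)) := mul_le_mul_of_nonneg_left f3 (by positivity)
      _ = _ := by ring
  have hTBN0 : 0 ≤ TB N M / N := div_nonneg (TB_nonneg N M) hN'.le
  have f1a := (abs_le.1 f1).1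
  have f1b := (abs_le.1 f1).2
  have hμL : |μ - L| ≤ d * L := by
    rw [abs_le]; constructor <;> nlinarith
  have hμ1 := (abs_le.1 hμL).1
  have hμ2 := (abs_le.1 hμL).2
  have hμ0 : 0 < μ := by nlinarith
  have hμ2L : μ ≤ 2 * L := by nlinarith
  have hH0L : L * L ≤ H0 := by rw [← sq]; exact hH0
  by_cases hbig : (pr (2 * N) : ℝ) - pr N < H0
  · -- no intervals to look at
    have hempty : {σ : Equiv.Perm (Fin N) | ¬ (d * (irr N σ H0 δ).card ≤ TB N M)} = ∅ := by
      rw [Set.eq_empty_iff_forall_notMem]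
      intro σ hσ
      apply hσ
      have : irr N σ H0 δ = ∅ := by
        unfold irr
        rw [Finset.filter_eq_empty_iff]
        intro x hx
        rw [not_not]
        intro H hH hxH
        exfalso
        have : (pr N : ℝ) ≤ x := by exact_mod_cast (Finset.mem_Ico.1 hx).1
        linarith
      rw [this, Finset.card_empty, Nat.cast_zero, mul_zero]
      exact TB_nonneg N M
    rw [hempty, Set.ncard_empty, Nat.cast_zero]
    positivity
  rw [not_lt] at hbig
  set k0 := ⌊H0 / (2 * μ)⌋₊ with hk0def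
  have hH00 : 0 < H0 := by nlinarith
  have hk1 : (k0 : ℝ) ≤ H0 / (2 * μ) := Nat.floor_le (by positivity)
  have hk2 : H0 / (2 * μ) < k0 + 1 := Nat.lt_floor_add_one _
  have hk1' : 2 * (k0 * μ) ≤ H0 := by
    rw [le_div_iff₀ (by positivity)] at hk1
    linarith
  have hk2' : H0 < 2 * ((k0 + 1) * μ) := by
    rw [div_lt_iff₀ (by positivity)] at hk2
    linarith
  have hkμ : H0 / 4 ≤ k0 * μ := by nlinarith
  have hk0 : 0 < k0 := by
    have : 0 < (k0 : ℝ) * μ := by linarith [hkμ, hH00]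
    have : 0 < (k0 : ℝ) := pos_of_mul_pos_left this hμ0.le
    exact_mod_cast this
  have hk0N : k0 ≤ N := by
    have h1 : (pr (2 * N) : ℝ) - pr N = N * mean N := by
      unfold mean; field_simp
    have h2 : (k0 : ℝ) * (2 * μ) ≤ N * mean N := by rw [← h1]; linarith
    have h3 : mean N ≤ 2 * μ := by nlinarith
    have h4 : (k0 : ℝ) * (2 * μ) ≤ N * (2 * μ) := h2.trans (mul_le_mul_of_nonneg_left h3 hN'.le)
    exact_mod_cast le_of_mul_le_mul_right h4 (by positivity)
  -- the inclusion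
  have hsub : {σ : Equiv.Perm (Fin N) | ¬ (d * (irr N σ H0 δ).card ≤ TB N M)} ⊆
      {σ : Equiv.Perm (Fin N) | ¬ Win N M μ d k0 σ} := by
    intro σ hσ hw
    apply hσ
    set u := Big (pr N) (bf N σ) N M with hu
    have hirr : irr N σ H0 δ ⊆ (Ico (pr N) (pr (2 * N))).filter (fun x => ∃ h : ℕ, 1 ≤ h ∧
        x + h ≤ pr (2 * N) ∧ d * h < (((Ioc x (x + h)).filter u).card : ℝ)) := by
      intro x hx
      unfold irr at hx
      rw [Finset.mem_filter] at hx ⊢
      refine ⟨hx.1, ?_⟩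
      by_contra hc
      push Not at hc
      apply hx.2
      have h16 : δ = 16 * d := by rw [hd]; ring
      rw [h16]
      refine reg_of_win N σ M μ d H0 k0 hμL ?_ hd0 hd1 hk0 hk0N hk1' ?_ ?_ hw x
        (Finset.mem_Ico.1 hx.1).1 hc
      · exact f2
      · nlinarith
      · nlinarith
    have hmax := maximal u d hd0 (pr (2 * N)) (pr (2 * N) - pr N) (pr N) rfl
      (pr_strictMono.monotone (by omega))
    have hbt := big_total (pr N) (bf N σ) N M
    rw [PP_N, PP_zero, TB_bf] at hbt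
    have hc : ((irr N σ H0 δ).card : ℝ) ≤ (((Ico (pr N) (pr (2 * N))).filter (fun x => ∃ h : ℕ, 1 ≤ h ∧
        x + h ≤ pr (2 * N) ∧ d * h < (((Ioc x (x + h)).filter u).card : ℝ))).card : ℝ) := by
      exact_mod_cast Finset.card_le_card hirr
    exact ((mul_le_mul_of_nonneg_left hc hd0.le).trans hmax).trans hbt
  have hcard : (({σ : Equiv.Perm (Fin N) | ¬ (d * (irr N σ H0 δ).card ≤ TB N M)}.ncard : ℕ) : ℝ) ≤
      (({σ : Equiv.Perm (Fin N) | ¬ Win N M μ d k0 σ}.ncard : ℕ) : ℝ) := by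
    exact_mod_cast Set.ncard_le_ncard hsub (Set.toFinite _)
  refine hcard.trans ?_
  refine (not_win_card N hN M d hM hd0 (by linarith) k0 hμ0.le).trans ?_
  apply mul_le_mul_of_nonneg_left _ (by positivity)
  apply mul_le_mul_of_nonneg_left _ (by positivity)
  apply Real.exp_le_exp.2
  apply neg_le_neg
  rw [← hμdef]
  rw [div_le_div_iff₀ (by positivity) (by positivity)]
  have h5 : d ^ 2 * (H0 / 4) ≤ d ^ 2 * (k0 * μ) := mul_le_mul_of_nonneg_left hkμ (by positivity)
  nlinarith [mul_le_mul_of_nonneg_right h5 (show (0 : ℝ) ≤ 16 * M by positivity)]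

end Pool.Agent.H99.OG
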