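import Pool.Agent.H99.OG.Core2

/-! Long gaps make irregular points, in every order. -/

open Finset Filter

namespace Pool.Agent.H99.OG

lemma cnt_zero (N : ℕ) (σ : Equiv.Perm (Fin N)) (j x : ℕ) (H : ℝ)
    (h1 : PP (pr N) (bf N σ) j ≤ x) (h2 : (x : ℝ) + H < PP (pr N) (bf N σ) (j + 1)) :
    cnt N σ x H = 0 := by
  classical
  rw [cnt_eq, Finset.card_eq_zero, Finset.filter_eq_empty_iff]
  rintro k - ⟨h3, h4⟩
  rcases Nat.lt_or_ge j k with h | h
  · have h5 : (PP (pr N) (bf N σ) (j + 1) : ℝ) ≤ PP (pr N) (bf N σ) k := by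
      exact_mod_cast PP_mono (pr N) (bf N σ) h
    linarith
  · have h5 := PP_mono (pr N) (bf N σ) h
    omega

lemma not_reg (N : ℕ) (σ : Equiv.Perm (Fin N)) (j t : ℕ) (H0 δ : ℝ) (hj : j < N)
    (ht : 2 * t < bf N σ j) (hH : 2 * H0 ≤ bf N σ j) (hδ : δ < 1) :
    ¬ Reg N σ H0 δ (PP (pr N) (bf N σ) j + t) := by
  intro hR
  have h1 : (2 * (t : ℝ)) + 1 ≤ bf N σ j := by exact_mod_cast ht
  have hP : (PP (pr N) (bf N σ) (j + 1) : ℝ) = PP (pr N) (bf N σ) j + bf N σ j := by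
    rw [PP_succ]; push_cast; ring
  have hlt : ((PP (pr N) (bf N σ) j + t : ℕ) : ℝ) + (bf N σ j : ℝ) / 2 <
      PP (pr N) (bf N σ) (j + 1) := by
    rw [hP]; push_cast; linarith
  have hle : (PP (pr N) (bf N σ) (j + 1) : ℝ) ≤ pr (2 * N) := by
    rw [← PP_N N σ]
    exact_mod_cast PP_mono (pr N) (bf N σ) hj
  have h2 := hR ((bf N σ j : ℝ) / 2) (by linarith) (hlt.le.trans hle)
  rw [cnt_zero N σ j _ _ (by omega) hlt] at h2
  simp at h2
  linarith

open Classical in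
/-- In every order of the gaps, at least half of the length of the long gaps is irregular. -/
lemma irr_lower (N : ℕ) (σ : Equiv.Perm (Fin N)) (H0 T δ : ℝ) (hT : 2 * H0 ≤ T) (hδ : δ < 1) :
    TB N T ≤ 2 * (irr N σ H0 δ).card := by
  set P := PP (pr N) (bf N σ) with hP
  have hP0 : P 0 = pr N := PP_zero _ _
  have hPs : ∀ j, P (j + 1) = P j + bf N σ j := PP_succ _ _
  have hPN : P N = pr (2 * N) := PP_N N σ
  set S := (range N).filter (fun j => T < bf N σ j) with hS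
  have hsub : S.biUnion (fun j => (range ((bf N σ j + 1) / 2)).image (fun t => P j + t)) ⊆
      irr N σ H0 δ := by
    intro x hx
    rw [Finset.mem_biUnion] at hx
    obtain ⟨j, hj, hx⟩ := hx
    rw [Finset.mem_image] at hx
    obtain ⟨t, ht, rfl⟩ := hx
    rw [Finset.mem_range] at ht
    rw [hS, Finset.mem_filter, Finset.mem_range] at hj
    have ht2 : 2 * t < bf N σ j := by omega
    unfold irr
    rw [Finset.mem_filter, Finset.mem_Ico]
    refine ⟨⟨?_, ?_⟩, not_reg N σ j t H0 δ hj.1 ht2 (by linarith [hj.2]) hδ⟩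
    · have : P 0 ≤ P j := PP_mono _ _ (Nat.zero_le j)
      omega
    · have h1 : P (j + 1) ≤ P N := PP_mono _ _ hj.1
      have h2 := hPs j
      omega
  have hdisj : Set.PairwiseDisjoint (S : Set ℕ)
      (fun j => (range ((bf N σ j + 1) / 2)).image (fun t => P j + t)) := by
    have key : ∀ i j : ℕ, i < j → i ∈ S → j ∈ S →
        Disjoint ((range ((bf N σ i + 1) / 2)).image (fun t => P i + t))
          ((range ((bf N σ j + 1) / 2)).image (fun t => P j + t)) := by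
      intro i j hij hi hj
      rw [Finset.disjoint_left]
      intro x hx1 hx2
      rw [Finset.mem_image] at hx1 hx2
      obtain ⟨t, ht, rfl⟩ := hx1
      obtain ⟨s, hs, hst⟩ := hx2
      rw [Finset.mem_range] at ht hs
      have h1 : P (i + 1) ≤ P j := PP_mono _ _ hij
      have h2 := hPs i
      omega
    intro i hi j hj hij
    rcases Nat.lt_or_gt_of_ne hij with h | h
    · exact key i j h hi hj
    · exact (key j i h hj hi).symm
  have hcard := Finset.card_le_card hsub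
  rw [Finset.card_biUnion hdisj] at hcard
  have h1 : ∀ j, ((range ((bf N σ j + 1) / 2)).image (fun t => P j + t)).card =
      (bf N σ j + 1) / 2 := by
    intro j
    rw [Finset.card_image_of_injective _ (fun a b h => by simpa using h), Finset.card_range]
  simp only [h1] at hcard
  rw [← TB_bf N σ T, ← hS]
  have h2 : ∑ j ∈ S, (bf N σ j : ℝ) ≤ ∑ j ∈ S, (2 * ((((bf N σ j + 1) / 2 : ℕ)) : ℝ)) := by
    refine Finset.sum_le_sum fun j _ => ?_
    have : bf N σ j ≤ 2 * ((bf N σ j + 1) / 2) := by omega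
    exact_mod_cast this
  rw [← Finset.mul_sum] at h2
  have h3 : (∑ j ∈ S, ((((bf N σ j + 1) / 2 : ℕ)) : ℝ)) ≤ (irr N σ H0 δ).card := by
    exact_mod_cast hcard
  linarith

open Classical in
lemma gap_le_of_TB (N n : ℕ) (T : ℝ) (hn : N ≤ n) (hn2 : n < 2 * N) (h : TB N T ≤ 0) :
    (gap n : ℝ) ≤ T := by
  by_contra hc
  rw [not_le] at hc
  have h1 : (gap n : ℝ) ≤ TB N T := by
    unfold TB
    exact Finset.single_le_sum (f := fun n => (gap n : ℝ)) (fun _ _ => Nat.cast_nonneg _)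
      (Finset.mem_filter.2 ⟨Finset.mem_Ico.2 ⟨hn, hn2⟩, hc⟩)
  have h2 : (0 : ℝ) < gap n := by exact_mod_cast gap_pos n
  linarith

lemma Reg.mono {N : ℕ} {σ : Equiv.Perm (Fin N)} {H0 H1 δ δ' : ℝ} {x : ℕ} (h : Reg N σ H0 δ x)
    (h1 : H0 ≤ H1) (h2 : δ ≤ δ') : Reg N σ H1 δ' x :=
  fun H hH hx => (h H (h1.trans hH) hx).trans h2

lemma irr_empty_iff (N : ℕ) (σ : Equiv.Perm (Fin N)) (H0 δ : ℝ) (hH : 0 < H0) :
    irr N σ H0 δ = ∅ ↔ ∀ x : ℕ, pr N ≤ x → Reg N σ H0 δ x := by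
  classical
  unfold irr
  rw [Finset.filter_eq_empty_iff]
  constructor
  · intro h x hx
    rcases Nat.lt_or_ge x (pr (2 * N)) with h1 | h1
    · exact not_not.1 (h (Finset.mem_Ico.2 ⟨hx, h1⟩))
    · intro H hH' hxH
      exfalso
      have : (pr (2 * N) : ℝ) ≤ x := by exact_mod_cast h1
      linarith
  · intro h x hx
    exact not_not.2 (h x (Finset.mem_Ico.1 hx).1)

/-! ### Growth lemmas -/

lemma pow_large (a C : ℝ) (ha : 0 < a) : ∀ᶠ N : ℕ in atTop, C ≤ (pr N : ℝ) ^ a :=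
  ((tendsto_rpow_atTop ha).comp prR_tendsto).eventually_ge_atTop C

lemma log_small (a : ℝ) (ha : 0 < a) : ∀ᶠ N : ℕ in atTop, Real.log (pr N) ^ 2 ≤ (pr N : ℝ) ^ a := by
  have h1 := (isLittleO_log_rpow_atTop (show 0 < a / 2 by positivity)).bound one_pos
  filter_upwards [prR_tendsto.eventually h1] with N h
  have h2 : |Real.log (pr N)| ≤ (pr N : ℝ) ^ (a / 2) := by
    rw [one_mul, Real.norm_eq_abs, Real.norm_eq_abs, abs_of_nonneg (Real.rpow_nonneg (pr_pos N).le _)] at h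
    exact h
  have h3 : (pr N : ℝ) ^ a = ((pr N : ℝ) ^ (a / 2)) ^ 2 := by
    rw [← Real.rpow_natCast, ← Real.rpow_mul (pr_pos N).le]
    congr 1
    push_cast; ring
  rw [h3, ← sq_abs]
  exact pow_le_pow_left₀ (abs_nonneg _) h2 2

lemma exp_small (κ a : ℝ) (hκ : 0 < κ) (ha : 0 < a) : ∀ᶠ N : ℕ in atTop,
    2 * ((N : ℝ) + 1) ^ 2 * Real.exp (-(κ * (pr N : ℝ) ^ a)) ≤ Real.exp (-((N : ℝ) ^ (a / 2))) := by
  have hN : Tendsto (fun N : ℕ => (N : ℝ)) atTop atTop := tendsto_natCast_atTop_atTop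
  have h0 := ((tendsto_rpow_atTop (show 0 < a / 2 by positivity)).comp hN).eventually_ge_atTop (7 / κ)
  have h00 := ((tendsto_rpow_atTop (show 0 < a / 2 by positivity)).comp hN).eventually_ge_atTop 1
  have h1 := (isLittleO_log_rpow_atTop (show 0 < a / 2 by positivity)).bound one_pos
  filter_upwards [hN.eventually h1, h0, h00, eventually_gt_atTop 0] with N h1 h0 h00 hpos
  have hN0 : (0 : ℝ) < N := by exact_mod_cast hpos
  have hN1 : (1 : ℝ) ≤ N := by exact_mod_cast hpos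
  simp only [Function.comp] at h0 h00
  rw [one_mul, Real.norm_eq_abs, Real.norm_eq_abs, abs_of_nonneg (Real.rpow_nonneg hN0.le _),
    abs_of_nonneg (Real.log_nonneg hN1)] at h1
  set A := (N : ℝ) ^ (a / 2) with hA
  have hlt : (N : ℝ) ≤ pr N := by exact_mod_cast (lt_pr N).le
  have h2 : (N : ℝ) ^ a ≤ (pr N : ℝ) ^ a := Real.rpow_le_rpow hN0.le hlt ha.le
  have h3 : (N : ℝ) ^ a = A ^ 2 := by
    rw [hA, ← Real.rpow_natCast, ← Real.rpow_mul hN0.le]
    congr 1
    push_cast; ring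
  have h4 : 7 ≤ κ * A := by
    rw [div_le_iff₀ hκ] at h0
    linarith
  have h5 : 2 * ((N : ℝ) + 1) ^ 2 ≤ Real.exp (3 + 2 * Real.log N) := by
    have e1 : Real.exp (3 + 2 * Real.log N) = Real.exp 3 * (N : ℝ) ^ 2 := by
      rw [Real.exp_add, show 2 * Real.log N = Real.log N * ((2 : ℕ) : ℝ) by push_cast; ring,
        mul_comm (Real.log N), Real.exp_nat_mul, Real.exp_log hN0]
    rw [e1]
    have e2 : (8 : ℝ) ≤ Real.exp 3 := by
      have e3 : (1 : ℝ) + 1 ≤ Real.exp 1 := Real.add_one_le_exp 1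
      have e4 : Real.exp 3 = Real.exp 1 ^ 3 := by
        rw [← Real.exp_nat_mul]; norm_num
      rw [e4]
      calc (8 : ℝ) = (1 + 1) ^ 3 := by norm_num
        _ ≤ _ := pow_le_pow_left₀ (by norm_num) e3 3
    nlinarith
  calc 2 * ((N : ℝ) + 1) ^ 2 * Real.exp (-(κ * (pr N : ℝ) ^ a))
      ≤ Real.exp (3 + 2 * Real.log N) * Real.exp (-(κ * (pr N : ℝ) ^ a)) :=
        mul_le_mul_of_nonneg_right h5 (Real.exp_pos _).le
    _ = Real.exp (3 + 2 * Real.log N + -(κ * (pr N : ℝ) ^ a)) := (Real.exp_add _ _).symm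
    _ ≤ _ := by
        apply Real.exp_le_exp.2
        have h6 : κ * A ^ 2 ≤ κ * (pr N : ℝ) ^ a := by
          rw [← h3]; exact mul_le_mul_of_nonneg_left h2 hκ.le
        nlinarith

end Pool.Agent.H99.OG
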