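import Pool.Agent.H99.OG.Window
import Pool.Agent.H99.OG.Gaps

/-! The increasing order of the gaps violates the asymptotic formula in intervals of length `κ x`. -/

open Finset Filter

namespace Pool.Agent.H99.OG

lemma cnt_ge (N : ℕ) (σ : Equiv.Perm (Fin N)) (s : ℕ) (hs : s ≤ N) (H : ℝ)
    (hH : (PP (pr N) (bf N σ) s : ℝ) ≤ pr N + H) : s ≤ cnt N σ (pr N) H := by
  classical
  rw [cnt_eq]
  have h1 : (Ioc 0 s) ⊆ (range (N + 1)).filter (fun k =>
      pr N < PP (pr N) (bf N σ) k ∧ (PP (pr N) (bf N σ) k : ℝ) ≤ pr N + H) := by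
    intro k hk
    rw [mem_Ioc] at hk
    rw [mem_filter, mem_range]
    refine ⟨by omega, ?_, ?_⟩
    · have := PP_lt (pr N) (bf N σ) (bf_pos N σ) (i := 0) (j := k) hk.1 (by omega)
      rwa [PP_zero] at this
    · have : (PP (pr N) (bf N σ) k : ℝ) ≤ PP (pr N) (bf N σ) s := by
        exact_mod_cast PP_mono (pr N) (bf N σ) hk.2
      linarith
  have h2 := card_le_card h1
  rwa [Nat.card_Ioc, Nat.sub_zero] at h2

/-- the part of a monotone sequence below `L` is an initial segment -/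
lemma initial (N : ℕ) (b : ℕ → ℕ) (L : ℝ) (hb : ∀ i j, i ≤ j → j < N → b i ≤ b j) :
    ∃ s ≤ N, (∀ j < s, (b j : ℝ) < L) ∧ ∀ j, s ≤ j → j < N → L ≤ b j := by
  induction N with
  | zero => exact ⟨0, le_rfl, fun j hj => absurd hj (Nat.not_lt_zero j), fun j _ hj => absurd hj (Nat.not_lt_zero j)⟩
  | succ N ih =>
    obtain ⟨s, h1, h2, h3⟩ := ih (fun i j hij hj => hb i j hij (by omega))
    rcases Nat.eq_or_lt_of_le h1 with h | h
    · by_cases h4 : (b N : ℝ) < L
      · refine ⟨N + 1, le_rfl, fun j hj => ?_, fun j hj hj2 => by omega⟩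
        rcases Nat.lt_succ_iff_lt_or_eq.1 hj with h5 | h5
        · exact h2 j (by omega)
        · rw [h5]; exact h4
      · refine ⟨N, by omega, fun j hj => h2 j (by omega), fun j hj hj2 => ?_⟩
        have : j = N := by omega
        rw [this]; exact not_lt.1 h4
    · refine ⟨s, by omega, h2, fun j hj hj2 => ?_⟩
      rcases Nat.lt_succ_iff_lt_or_eq.1 hj2 with h5 | h5
      · exact h3 j hj h5
      · have h6 : (b (N - 1) : ℝ) ≤ b j := by exact_mod_cast hb (N - 1) j (by omega) (by omega)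
        exact (h3 (N - 1) (by omega) (by omega)).trans h6

/-- The excess of the small gaps. -/
lemma deficit (δ : ℝ) (hδ : 0 < δ) (N : ℕ) (L : ℝ) (hL : 0 < L) (b : ℕ → ℕ)
    (hmean : ∑ j ∈ range N, ((b j : ℝ) - L) ≤ δ / 4 * (N * L))
    (hoff : (((range N).filter (fun j => |(b j : ℝ) - L| ≤ δ * L)).card : ℝ) ≤ N / 2)
    (s : ℕ) (hs : s ≤ N) (h1 : ∀ j < s, (b j : ℝ) < L) (h2 : ∀ j, s ≤ j → j < N → L ≤ b j) :
    δ / 8 * (N * L) ≤ ∑ j ∈ range s, (L - (b j : ℝ)) := by
  have e1 : ∑ j ∈ range N, |(b j : ℝ) - L| =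
      ∑ j ∈ range N, ((b j : ℝ) - L) + 2 * ∑ j ∈ range s, (L - (b j : ℝ)) := by
    rw [← Finset.sum_range_add_sum_Ico (fun j => |(b j : ℝ) - L|) hs,
      ← Finset.sum_range_add_sum_Ico (fun j => (b j : ℝ) - L) hs]
    have e2 : ∑ j ∈ range s, |(b j : ℝ) - L| = ∑ j ∈ range s, (L - (b j : ℝ)) := by
      refine sum_congr rfl fun j hj => ?_
      rw [abs_of_neg (by linarith [h1 j (mem_range.1 hj)])]; ring
    have e3 : ∑ j ∈ Ico s N, |(b j : ℝ) - L| = ∑ j ∈ Ico s N, ((b j : ℝ) - L) := by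
      refine sum_congr rfl fun j hj => ?_
      rw [mem_Ico] at hj
      rw [abs_of_nonneg (by linarith [h2 j hj.1 hj.2])]
    have e4 : ∑ j ∈ range s, ((b j : ℝ) - L) = - ∑ j ∈ range s, (L - (b j : ℝ)) := by
      rw [← sum_neg_distrib]
      exact sum_congr rfl fun j _ => by ring
    rw [e2, e3, e4]; ring
  have e5 : δ * L * (N / 2) ≤ ∑ j ∈ range N, |(b j : ℝ) - L| := by
    have e6 : ∑ j ∈ (range N).filter (fun j => ¬ |(b j : ℝ) - L| ≤ δ * L), δ * L ≤
        ∑ j ∈ range N, |(b j : ℝ) - L| := by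
      refine (sum_le_sum fun j hj => ?_).trans
        (sum_le_sum_of_subset_of_nonneg (filter_subset _ _) fun _ _ _ => abs_nonneg _)
      exact (not_le.1 (mem_filter.1 hj).2).le
    rw [sum_const, nsmul_eq_mul] at e6
    have e7 : (N : ℝ) = (((range N).filter (fun j => |(b j : ℝ) - L| ≤ δ * L)).card : ℝ) +
        ((range N).filter (fun j => ¬ |(b j : ℝ) - L| ≤ δ * L)).card := by
      have := card_filter_add_card_filter_not (s := range N) (fun j => |(b j : ℝ) - L| ≤ δ * L)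
      rw [card_range] at this
      exact_mod_cast this.symm
    have e8 : (N : ℝ) / 2 ≤ ((range N).filter (fun j => ¬ |(b j : ℝ) - L| ≤ δ * L)).card := by
      linarith
    have e9 : δ * L * (N / 2) ≤ δ * L * ((range N).filter (fun j => ¬ |(b j : ℝ) - L| ≤ δ * L)).card :=
      mul_le_mul_of_nonneg_left e8 (by positivity)
    linarith
  nlinarith

lemma bf_mono (N : ℕ) (σ : Equiv.Perm (Fin N)) (h : Monotone (fun i : Fin N => gap (N + (σ i : ℕ))))
    (i j : ℕ) (hij : i ≤ j) (hj : j < N) : bf N σ i ≤ bf N σ j := by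
  unfold bf
  rw [dif_pos (show i < N by omega), dif_pos hj]
  exact h (a := ⟨i, by omega⟩) (b := ⟨j, hj⟩) hij

lemma card_bf (N : ℕ) (σ : Equiv.Perm (Fin N)) (p : ℝ → Prop) [DecidablePred p] :
    ((range N).filter (fun j => p (bf N σ j))).card = ((Ico N (2 * N)).filter (fun n => p (gap n))).card := by
  have h := sum_bf N σ (fun y => if p y then 1 else 0)
  rw [← sum_filter, ← sum_filter, sum_const, sum_const, nsmul_eq_mul, nsmul_eq_mul, mul_one,
    mul_one] at h
  exact_mod_cast h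

/-- If the gaps are put in increasing order, the asymptotic formula fails in an interval
of length at least `κ x` which starts at `x = p_N`. -/
theorem increasing_fails : ∃ κ : ℝ, 0 < κ ∧ ∃ θ : ℝ, 0 < θ ∧ ∀ᶠ N : ℕ in atTop,
    ∀ σ : Equiv.Perm (Fin N), Monotone (fun i : Fin N => gap (N + (σ i : ℕ))) →
      ¬ Reg N σ (κ * pr N) θ (pr N) := by
  obtain ⟨δ, hδ⟩ : ∃ δ : ℝ, δ = 1 / (162 * 10 ^ 16) := ⟨_, rfl⟩
  have hδ0 : 0 < δ := by rw [hδ]; positivity
  have hδ1 : δ ≤ 1 := by rw [hδ]; norm_num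
  have hoff := half_off
  rw [← hδ] at hoff
  refine ⟨δ / 32, by positivity, δ / 16, by positivity, ?_⟩
  filter_upwards [hoff, facts (δ / 4) (by positivity)] with N hoff hf σ hmono hreg
  obtain ⟨f1, -, f3, f4, hN⟩ := hf
  have hN0 : (0 : ℝ) < N := by exact_mod_cast hN
  have hL := log_pr_pos N
  set L := Real.log (pr N) with hLdef
  have hp := pr_pos N
  set b := bf N σ with hb
  obtain ⟨s, hs, h1, h2⟩ := initial N b L (fun i j => bf_mono N σ hmono i j)
  have hsum : ∑ j ∈ range N, (b j : ℝ) = pr (2 * N) - pr N := by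
    have := sum_bf N σ id
    simp only [id] at this
    rw [hb, this, sum_gap (by omega)]
  have hNm : (pr (2 * N) : ℝ) - pr N = N * mean N := by
    unfold mean; field_simp
  have f1a := (abs_le.1 f1).1
  have f1b := (abs_le.1 f1).2
  have hmean : ∑ j ∈ range N, ((b j : ℝ) - L) ≤ δ / 4 * (N * L) := by
    rw [sum_sub_distrib, hsum, hNm, sum_const, card_range, nsmul_eq_mul]
    nlinarith
  have hoff' : (((range N).filter (fun j => |(b j : ℝ) - L| ≤ δ * L)).card : ℝ) ≤ N / 2 := by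
    classical
    have := card_bf N σ (fun y => |y - L| ≤ δ * L)
    rw [hb, this]
    exact hoff
  have hdef := deficit δ hδ0 N L hL b hmean hoff' s hs h1 h2
  rw [sum_sub_distrib, sum_const, card_range, nsmul_eq_mul] at hdef
  set Y := ∑ j ∈ range s, (b j : ℝ) with hY
  have hP : (PP (pr N) b s : ℝ) = pr N + Y := by
    unfold PP; push_cast; rw [hY]
  have hs0 : (s : ℝ) ≤ N := by exact_mod_cast hs
  have hY0 : 0 ≤ Y := sum_nonneg fun _ _ => Nat.cast_nonneg _
  have hPN : (PP (pr N) b s : ℝ) ≤ pr (2 * N) := by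
    rw [← PP_N N σ]
    exact_mod_cast PP_mono (pr N) (bf N σ) hs
  rcases le_or_gt (δ / 32 * (pr N : ℝ)) Y with hc | hc
  · -- the interval ends at the `s`-th point
    have hYpos : 0 < Y := lt_of_lt_of_le (by positivity) hc
    have hr := hreg Y hc (by rw [← hP]; exact hPN)
    have hcnt := cnt_ge N σ s hs Y (by rw [← hP])
    have hcnt' : (s : ℝ) ≤ cnt N σ (pr N) Y := by exact_mod_cast hcnt
    have hr2 := (abs_le.1 hr).2
    have e1 : (s : ℝ) * L / Y ≤ cnt N σ (pr N) Y * L / Y :=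
      div_le_div_of_nonneg_right (mul_le_mul_of_nonneg_right hcnt' hL.le) hY0
    have e2 : (s : ℝ) * L / Y ≤ 1 + δ / 16 := by linarith
    rw [div_le_iff₀ hYpos] at e2
    have e3 : Y ≤ N * L := by nlinarith
    nlinarith
  · have hlen : (pr N : ℝ) + δ / 32 * pr N ≤ pr (2 * N) := by nlinarith
    have hr := hreg (δ / 32 * pr N) le_rfl hlen
    have hcnt := cnt_ge N σ s hs (δ / 32 * pr N) (by rw [← hb, hP]; linarith)
    have hcnt' : (s : ℝ) ≤ cnt N σ (pr N) (δ / 32 * pr N) := by exact_mod_cast hcnt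
    have hr2 := (abs_le.1 hr).2
    have hpos : 0 < δ / 32 * (pr N : ℝ) := by positivity
    have e1 : (s : ℝ) * L / (δ / 32 * pr N) ≤
        cnt N σ (pr N) (δ / 32 * pr N) * L / (δ / 32 * pr N) :=
      div_le_div_of_nonneg_right (mul_le_mul_of_nonneg_right hcnt' hL.le) hpos.le
    have e2 : (s : ℝ) * L / (δ / 32 * pr N) ≤ 1 + δ / 16 := by linarith
    rw [div_le_iff₀ hpos] at e2
    have e3 : (1 + δ / 16) * (δ / 32 * (pr N : ℝ)) ≤ (1 + δ / 16) * (δ / 32 * (2 * (N * L))) := by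
      apply mul_le_mul_of_nonneg_left _ (by positivity)
      apply mul_le_mul_of_nonneg_left f3 (by positivity)
    have e4 : 0 < N * L := by positivity
    nlinarith

end Pool.Agent.H99.OG
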