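import Pool.Agent.H99.OG.Gaps

/-! The identity order: the asymptotic formula for the primes themselves. -/

open Finset Filter Topology

namespace Pool.Agent.H99.OG

/-- `π(x + H) - π(x) ~ H / log x` uniformly for `x^(c+ε) < H ≤ x`. -/
def Asymp (c : ℝ) : Prop :=
  ∀ ε : ℝ, 0 < ε → ∀ δ : ℝ, 0 < δ → ∃ X : ℝ, ∀ x : ℝ, X ≤ x →
    ∀ H : ℝ, x ^ (c + ε) < H → H ≤ x →
      |(((Finset.Ioc ⌊x⌋₊ ⌊x + H⌋₊).filter Nat.Prime).card : ℝ) - H / Real.log x|
        ≤ δ * (H / Real.log x)

/-- the identity order of the gaps is regular -/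
def IdAll (c : ℝ) : Prop :=
  ∀ ε : ℝ, 0 < ε → ∀ δ : ℝ, 0 < δ → ∀ᶠ N : ℕ in atTop,
    ∀ x : ℕ, pr N ≤ x → Reg N 1 ((pr N : ℝ) ^ (c + ε)) δ x

lemma PP_id (N k : ℕ) (hk : k ≤ N) : PP (pr N) (bf N 1) k = pr (N + k) := by
  induction k with
  | zero => rw [PP_zero, Nat.add_zero]
  | succ k ih =>
    rw [PP_succ, ih (by omega)]
    have h1 : bf N 1 k = gap (N + k) := by
      unfold bf; rw [dif_pos (show k < N by omega)]; rfl
    have h2 := pr_strictMono (Nat.lt_add_one (N + k))
    rw [h1, ← Nat.add_assoc]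
    unfold gap
    omega

lemma id_cnt (N x : ℕ) (H : ℝ) (hx : pr N ≤ x) (hH : 0 ≤ H) (hxH : (x : ℝ) + H ≤ pr (2 * N)) :
    cnt N 1 x H = ((Ioc x ⌊(x : ℝ) + H⌋₊).filter Nat.Prime).card := by
  classical
  rw [cnt_eq]
  have hx0 : 0 ≤ (x : ℝ) + H := by positivity
  refine card_bij (fun k _ => pr (N + k)) ?_ ?_ ?_
  · intro k hk
    rw [mem_filter, mem_range] at hk
    rw [PP_id N k (by omega)] at hk
    rw [mem_filter, mem_Ioc]
    exact ⟨⟨hk.2.1, Nat.le_floor hk.2.2⟩, pr_prime _⟩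
  · intro a _ b _ hab
    have := pr_strictMono.injective hab
    omega
  · intro p hp
    rw [mem_filter, mem_Ioc] at hp
    have h1 : pr (Nat.count Nat.Prime p) = p := Nat.nth_count hp.2
    set n := Nat.count Nat.Prime p with hn
    have h2 : N < n := by
      by_contra hc
      have := pr_strictMono.monotone (not_lt.1 hc)
      omega
    have h3 : (p : ℝ) ≤ x + H := (Nat.le_floor_iff hx0).1 hp.1.2
    have h4 : n ≤ 2 * N := by
      by_contra hc
      have h5 := pr_strictMono (not_le.1 hc)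
      rw [h1] at h5
      have : (pr (2 * N) : ℝ) < p := by exact_mod_cast h5
      linarith
    refine ⟨n - N, ?_, ?_⟩
    · rw [mem_filter, mem_range, PP_id N (n - N) (by omega), Nat.add_sub_cancel' h2.le, h1]
      exact ⟨by omega, hp.1.1, h3⟩
    · change pr (N + (n - N)) = p
      rw [Nat.add_sub_cancel' h2.le, h1]

lemma card_primes (a b : ℕ) (h : a ≤ b) : (((Ioc a b).filter Nat.Prime).card : ℝ) =
    (Nat.primeCounting b : ℝ) - Nat.primeCounting a := by
  have h1 : ∀ n, Nat.primeCounting n = ((range (n + 1)).filter Nat.Prime).card := by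
    intro n
    unfold Nat.primeCounting Nat.primeCounting'
    rw [Nat.count_eq_card_filter_range]
  have h2 : (range (b + 1)).filter Nat.Prime = (range (a + 1)).filter Nat.Prime ∪
      (Ioc a b).filter Nat.Prime := by
    ext p
    simp only [mem_filter, mem_union, mem_range, mem_Ioc]
    constructor
    · rintro ⟨h3, h4⟩
      rcases Nat.lt_or_ge a p with h5 | h5
      · right; exact ⟨⟨h5, by omega⟩, h4⟩
      · left; exact ⟨by omega, h4⟩
    · rintro (⟨h3, h4⟩ | ⟨h3, h4⟩)
      · exact ⟨by omega, h4⟩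
      · exact ⟨by omega, h4⟩
  have h3 : Disjoint ((range (a + 1)).filter Nat.Prime) ((Ioc a b).filter Nat.Prime) := by
    rw [disjoint_left]
    intro p hp hq
    rw [mem_filter, mem_range] at hp
    rw [mem_filter, mem_Ioc] at hq
    omega
  rw [h1, h1, h2, card_union_of_disjoint h3]
  push_cast; ring

/-- the prime number theorem in intervals of length `≥ κ x` -/
lemma pnt_win (κ θ : ℝ) (hκ : 0 < κ) (hθ : 0 < θ) : ∃ X : ℝ, ∀ x : ℝ, X ≤ x → ∀ H : ℝ,
    κ * x ≤ H → H ≤ 3 * x →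
      |(((Finset.Ioc ⌊x⌋₊ ⌊x + H⌋₊).filter Nat.Prime).card : ℝ) - H / Real.log x|
        ≤ θ * (H / Real.log x) := by
  set t := θ * κ / 9 with ht
  have ht0 : 0 < t := by positivity
  obtain ⟨X0, hX0⟩ := eventually_atTop.1
    ((Metric.tendsto_nhds.1 Pool.Agent.Helper923.PNT.pi_tendsto) t ht0)
  obtain ⟨X1, hX1⟩ := eventually_atTop.1 (Real.tendsto_log_atTop.eventually_ge_atTop (2 / t))
  refine ⟨max (max X0 X1) 2, fun x hx H hH1 hH2 => ?_⟩
  have hx0 : X0 ≤ x := (le_max_left _ _).trans ((le_max_left _ _).trans hx)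
  have hx1 : X1 ≤ x := (le_max_right _ _).trans ((le_max_left _ _).trans hx)
  have hx2 : 2 ≤ x := (le_max_right _ _).trans hx
  have hl : 2 / t ≤ Real.log x := hX1 x hx1
  have hl0 : 0 < Real.log x := Real.log_pos (by linarith)
  have hH0 : 0 < H := lt_of_lt_of_le (by positivity) hH1
  have hle : ⌊x⌋₊ ≤ ⌊x + H⌋₊ := Nat.floor_mono (by linarith)
  rw [card_primes _ _ hle]
  have key : ∀ y : ℝ, X0 ≤ y → 2 ≤ y → |(Nat.primeCounting ⌊y⌋₊ : ℝ) - y / Real.log y| ≤
      t * (y / Real.log y) := by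
    intro y hy hy2
    have h1 := hX0 y hy
    rw [Real.dist_eq] at h1
    have hly : 0 < Real.log y := Real.log_pos (by linarith)
    have hy0 : 0 < y := by linarith
    have e : (Nat.primeCounting ⌊y⌋₊ : ℝ) - y / Real.log y =
        ((Nat.primeCounting ⌊y⌋₊ : ℝ) * Real.log y / y - 1) * (y / Real.log y) := by
      field_simp
    rw [e, abs_mul, abs_of_pos (show 0 < y / Real.log y by positivity)]
    refine mul_le_mul_of_nonneg_right ?_ (by positivity)
    refine le_trans (le_of_eq ?_) h1.le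
    rfl
  have k1 := key x hx0 hx2
  have k2 := key (x + H) (by linarith) (by linarith)
  have hlm : Real.log x ≤ Real.log (x + H) := Real.log_le_log (by linarith) (by linarith)
  have hl4 : Real.log (x + H) ≤ Real.log x + 2 := by
    have e1 : Real.log (x + H) ≤ Real.log (4 * x) := Real.log_le_log (by linarith) (by linarith)
    rw [Real.log_mul (by norm_num) (by linarith)] at e1
    have e2 : Real.log 4 ≤ 2 := by
      rw [show (4 : ℝ) = 2 ^ 2 by norm_num, Real.log_pow]
      have := Real.log_two_lt_d9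
      push_cast; linarith
    linarith
  set y := x + H with hy
  have hy0 : 0 < y := by linarith
  have hly0 : 0 < Real.log y := lt_of_lt_of_le hl0 hlm
  -- y / log y versus y / log x
  have d1 : y / Real.log y ≤ y / Real.log x := div_le_div_of_nonneg_left hy0.le hl0 hlm
  have d2 : y / Real.log x - t * (y / Real.log x) ≤ y / Real.log y := by
    have htl : 2 ≤ t * Real.log x := by
      rw [div_le_iff₀ ht0] at hl
      linarith
    have e1 : y / Real.log x - t * (y / Real.log x) = (1 - t) * y / Real.log x := by ring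
    rw [e1, div_le_div_iff₀ hl0 hly0]
    have e2 : (1 - t) * Real.log y ≤ Real.log x := by
      have e3 : t * Real.log x ≤ t * Real.log y := mul_le_mul_of_nonneg_left hlm ht0.le
      have e4 : (1 - t) * Real.log y = Real.log y - t * Real.log y := by ring
      linarith
    calc (1 - t) * y * Real.log y = y * ((1 - t) * Real.log y) := by ring
      _ ≤ y * Real.log x := mul_le_mul_of_nonneg_left e2 hy0.le
  have hyx : y / Real.log x ≤ 4 * (x / Real.log x) := by
    rw [← mul_div_assoc]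
    exact div_le_div_of_nonneg_right (by linarith) hl0.le
  have hxH : t * (x / Real.log x) ≤ θ / 9 * (H / Real.log x) := by
    have e1 : t * (x / Real.log x) = θ / 9 * (κ * x / Real.log x) := by rw [ht]; ring
    rw [e1]
    apply mul_le_mul_of_nonneg_left _ (by positivity)
    exact div_le_div_of_nonneg_right hH1 hl0.le
  have hHy : H / Real.log x = y / Real.log x - x / Real.log x := by rw [hy]; ring
  have hpos1 : 0 < y / Real.log x := by positivity
  have htly : t * (y / Real.log y) ≤ t * (4 * (x / Real.log x)) :=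
    mul_le_mul_of_nonneg_left (d1.trans hyx) ht0.le
  have htly2 : t * (y / Real.log x) ≤ t * (4 * (x / Real.log x)) :=
    mul_le_mul_of_nonneg_left hyx ht0.le
  have k1a := (abs_le.1 k1).1
  have k1b := (abs_le.1 k1).2
  have k2a := (abs_le.1 k2).1
  have k2b := (abs_le.1 k2).2
  rw [abs_le]
  constructor <;> linarith

lemma id_of_asymp {c : ℝ} (hc : 0 ≤ c) (h : Asymp c) : IdAll c := by
  intro ε hε δ hδ
  obtain ⟨X1, hX1⟩ := h (ε / 2) (by positivity) δ hδ
  obtain ⟨X2, hX2⟩ := pnt_win 1 δ one_pos hδ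
  filter_upwards [prR_tendsto.eventually_ge_atTop X1, prR_tendsto.eventually_ge_atTop X2,
    facts 1 one_pos, pow_large (ε / 2) ((3 : ℝ) ^ (c + ε / 2) + 1) (by positivity)]
    with N h1 h2 hf h3 x hx H hH hxH
  have hp := pr_pos N
  have f4 := hf.2.2.2.1
  have hxr : (pr N : ℝ) ≤ x := by exact_mod_cast hx
  have hH0 : 0 < H := lt_of_lt_of_le (Real.rpow_pos_of_pos hp _) hH
  have hx3 : (x : ℝ) ≤ 3 * pr N := by linarith
  have hx1 : (1 : ℝ) < x := by
    have : (2 : ℝ) ≤ pr N := by exact_mod_cast pr_two_le N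
    linarith
  have hlx : 0 < Real.log x := Real.log_pos hx1
  rw [id_cnt N x H hx hH0.le hxH]
  have key : |(((Finset.Ioc ⌊(x : ℝ)⌋₊ ⌊(x : ℝ) + H⌋₊).filter Nat.Prime).card : ℝ) - H / Real.log x|
        ≤ δ * (H / Real.log x) := by
    rcases le_or_gt H x with h4 | h4
    · refine hX1 x (h1.trans hxr) H ?_ h4
      refine lt_of_lt_of_le ?_ hH
      calc (x : ℝ) ^ (c + ε / 2) ≤ (3 * pr N) ^ (c + ε / 2) :=
            Real.rpow_le_rpow (by linarith) hx3 (by positivity)
        _ = (3 : ℝ) ^ (c + ε / 2) * (pr N : ℝ) ^ (c + ε / 2) :=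
            Real.mul_rpow (by norm_num) hp.le
        _ < (pr N : ℝ) ^ (ε / 2) * (pr N : ℝ) ^ (c + ε / 2) :=
            mul_lt_mul_of_pos_right (by linarith) (Real.rpow_pos_of_pos hp _)
        _ = (pr N : ℝ) ^ (c + ε) := by rw [← Real.rpow_add hp]; congr 1; ring
    · exact hX2 x (h2.trans hxr) H (by linarith) (by linarith)
  rw [Nat.floor_natCast] at key
  set C := (((Finset.Ioc x ⌊(x : ℝ) + H⌋₊).filter Nat.Prime).card : ℝ) with hC
  have e : C * Real.log x / H - 1 = (C - H / Real.log x) / (H / Real.log x) := by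
    field_simp
  rw [e, abs_div, abs_of_pos (show 0 < H / Real.log x by positivity), div_le_iff₀ (by positivity)]
  exact key

/-- the next prime is at most `6/5` times the prime -/
lemma next_prime : ∀ᶠ N : ℕ in atTop, (pr (N + 1) : ℝ) ≤ 6 / 5 * pr N := by
  obtain ⟨X, hX⟩ := pnt_win (1 / 5) (1 / 2) (by norm_num) (by norm_num)
  filter_upwards [prR_tendsto.eventually_ge_atTop X] with N hN
  have hp := pr_pos N
  have hl := log_pr_pos N
  have h1 := hX (pr N) hN (1 / 5 * pr N) le_rfl (by linarith)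
  have h2 : 0 < 1 / 5 * (pr N : ℝ) / Real.log (pr N) := by positivity
  have h3 := (abs_le.1 h1).1
  have h4 : (0 : ℝ) < (((Finset.Ioc ⌊(pr N : ℝ)⌋₊ ⌊(pr N : ℝ) + 1 / 5 * pr N⌋₊).filter
      Nat.Prime).card : ℝ) := by linarith
  have h5 : 0 < ((Finset.Ioc ⌊(pr N : ℝ)⌋₊ ⌊(pr N : ℝ) + 1 / 5 * pr N⌋₊).filter
      Nat.Prime).card := by exact_mod_cast h4
  rw [card_pos] at h5
  obtain ⟨p, hpm⟩ := h5
  rw [mem_filter, mem_Ioc, Nat.floor_natCast] at hpm
  have h6 : (p : ℝ) ≤ pr N + 1 / 5 * pr N := (Nat.le_floor_iff (by positivity)).1 hpm.1.2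
  have h7 : pr (N + 1) ≤ p := by
    have h8 : pr (Nat.count Nat.Prime p) = p := Nat.nth_count hpm.2
    rw [← h8]
    apply pr_strictMono.monotone
    by_contra hc
    have : pr (Nat.count Nat.Prime p) ≤ pr N := pr_strictMono.monotone (by omega)
    rw [h8] at this
    omega
  have h8 : (pr (N + 1) : ℝ) ≤ p := by exact_mod_cast h7
  linarith

lemma pr_two_ge : ∀ᶠ N : ℕ in atTop, 3 / 2 * (pr N : ℝ) ≤ pr (2 * N) := by
  have h4 := (Metric.tendsto_nhds.1 pr_two_ratio) (1 / 2) (by norm_num)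
  filter_upwards [h4] with N h4
  rw [Real.dist_eq] at h4
  have := (abs_lt.1 h4).1
  have hp := pr_pos N
  have h6 : 3 / 2 ≤ (pr (2 * N) : ℝ) / pr N := by linarith
  rwa [le_div_iff₀ hp] at h6

lemma asymp_of_id {c : ℝ} (hc : 0 ≤ c) (h : IdAll c) : Asymp c := by
  intro ε hε δ0 hδ0
  set δ := min δ0 1 with hδdef
  have hδ : 0 < δ := lt_min hδ0 one_pos
  have hδ1 : δ ≤ 1 := min_le_right _ _
  obtain ⟨X2, hX2⟩ := pnt_win (1 / 4) δ (by norm_num) hδ
  obtain ⟨N0, hN0⟩ := eventually_atTop.1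
    (((h (ε / 2) (by positivity) (δ / 4) (by positivity)).and next_prime).and pr_two_ge)
  -- largeness of `x`
  have hbig1 := (tendsto_rpow_atTop (show (0 : ℝ) < ε / 2 by positivity)).eventually_ge_atTop 2
  have hbig2 := (tendsto_rpow_atTop (show (0 : ℝ) < c + ε by positivity)).eventually_ge_atTop (8 / δ)
  have hbig3 := Real.tendsto_log_atTop.eventually_ge_atTop (8 / δ + 1)
  obtain ⟨X3, hX3⟩ := eventually_atTop.1 ((hbig1.and hbig2).and hbig3)
  refine ⟨max (max X2 X3) (pr N0 + 1), fun x hx H hH1 hH2 => ?_⟩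
  have hx2 : X2 ≤ x := (le_max_left _ _).trans ((le_max_left _ _).trans hx)
  have hx3 : X3 ≤ x := (le_max_right _ _).trans ((le_max_left _ _).trans hx)
  have hxN : (pr N0 : ℝ) + 1 ≤ x := (le_max_right _ _).trans hx
  obtain ⟨⟨b1, b2⟩, b3⟩ := hX3 x hx3
  have hp0 : (2 : ℝ) ≤ pr N0 := by exact_mod_cast pr_two_le N0
  have hx0 : 3 ≤ x := by linarith
  have hlx : 0 < Real.log x := Real.log_pos (by linarith)
  have hH0 : 0 < H := lt_of_le_of_lt (Real.rpow_nonneg (by linarith) _) hH1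
  have hHl : 0 < H / Real.log x := by positivity
  have goal_of : |(((Finset.Ioc ⌊x⌋₊ ⌊x + H⌋₊).filter Nat.Prime).card : ℝ) - H / Real.log x|
        ≤ δ * (H / Real.log x) →
      |(((Finset.Ioc ⌊x⌋₊ ⌊x + H⌋₊).filter Nat.Prime).card : ℝ) - H / Real.log x|
        ≤ δ0 * (H / Real.log x) := fun h => h.trans
          (mul_le_mul_of_nonneg_right (min_le_left _ _) hHl.le)
  apply goal_of
  rcases le_or_gt (1 / 4 * x) H with h4 | h4
  · exact hX2 x hx2 H h4 (by linarith)
  -- the block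
  set m := ⌊x⌋₊ with hm
  have hmx : (m : ℝ) ≤ x := Nat.floor_le (by linarith)
  have hmx1 : x < m + 1 := Nat.lt_floor_add_one x
  obtain ⟨N, hN1, hN2⟩ : ∃ N, pr N ≤ m ∧ m < pr (N + 1) := by
    have hex : ∃ n, m < pr n := ⟨m, lt_pr m⟩
    have h5 := Nat.find_spec hex
    have h6 : Nat.find hex ≠ 0 := by
      intro h7
      rw [h7] at h5
      have h8 : pr 0 ≤ pr N0 := pr_strictMono.monotone (Nat.zero_le _)
      have h9 : (m : ℝ) < pr N0 := by exact_mod_cast lt_of_lt_of_le h5 h8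
      linarith
    obtain ⟨N, hN⟩ := Nat.exists_eq_succ_of_ne_zero h6
    refine ⟨N, ?_, ?_⟩
    · have := Nat.find_min hex (m := N) (by omega)
      exact not_lt.1 this
    · rw [hN] at h5
      exact h5
  have hNN0 : N0 ≤ N := by
    by_contra hc
    have h5 : pr (N + 1) ≤ pr N0 := pr_strictMono.monotone (by omega)
    have h6 : (m : ℝ) < pr N0 := by exact_mod_cast lt_of_lt_of_le hN2 h5
    linarith
  obtain ⟨⟨r1, r2⟩, r3⟩ := hN0 N hNN0
  have hpN := pr_pos N
  have hm0 : (2 : ℝ) ≤ m := by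
    have : (2 : ℝ) ≤ pr N := by exact_mod_cast pr_two_le N
    have h5 : (pr N : ℝ) ≤ m := by exact_mod_cast hN1
    linarith
  -- the length
  set K := ⌊x + H⌋₊ with hK
  have hKx : (K : ℝ) ≤ x + H := Nat.floor_le (by linarith)
  have hKx1 : x + H < K + 1 := Nat.lt_floor_add_one _
  have hmK : m ≤ K := Nat.floor_mono (by linarith)
  set H' : ℝ := (K : ℝ) - m with hH'
  have hH'1 : H - 1 < H' := by linarith
  have hH'2 : H' < H + 1 := by linarith
  have hpow : (pr N : ℝ) ^ (c + ε / 2) ≤ H' := by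
    have e1 : (pr N : ℝ) ^ (c + ε / 2) ≤ x ^ (c + ε / 2) := by
      apply Real.rpow_le_rpow hpN.le _ (by positivity)
      have : (pr N : ℝ) ≤ m := by exact_mod_cast hN1
      linarith
    have e2 : x ^ (c + ε) = x ^ (ε / 2) * x ^ (c + ε / 2) := by
      rw [← Real.rpow_add (by linarith)]; congr 1; ring
    have e3 : 1 ≤ x ^ (c + ε / 2) := Real.one_le_rpow (by linarith) (by positivity)
    have e4 : 2 * x ^ (c + ε / 2) ≤ x ^ (ε / 2) * x ^ (c + ε / 2) :=
      mul_le_mul_of_nonneg_right b1 (by linarith)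
    linarith
  have hx1N : x ≤ 6 / 5 * pr N := by
    have : (m : ℝ) + 1 ≤ pr (N + 1) := by exact_mod_cast hN2
    linarith
  have hend : (m : ℝ) + H' ≤ pr (2 * N) := by
    have : (m : ℝ) + H' = K := by rw [hH']; ring
    rw [this]
    linarith
  have hH'0 : 0 < H' := lt_of_lt_of_le (Real.rpow_pos_of_pos hpN _) hpow
  have hr := r1 m hN1 H' hpow hend
  rw [id_cnt N m H' hN1 hH'0.le hend] at hr
  have hfl : ⌊(m : ℝ) + H'⌋₊ = K := by
    have : (m : ℝ) + H' = K := by rw [hH']; ring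
    rw [this, Nat.floor_natCast]
  rw [hfl] at hr
  set C := (((Finset.Ioc m K).filter Nat.Prime).card : ℝ) with hC
  have hC0 : 0 ≤ C := Nat.cast_nonneg _
  have hlm : 0 < Real.log m := Real.log_pos (by linarith)
  have l1 : Real.log m ≤ Real.log x := Real.log_le_log (by linarith) hmx
  have l2 : Real.log x ≤ Real.log m + 1 := by
    have e1 : Real.log x ≤ Real.log (2 * m) := Real.log_le_log (by linarith) (by linarith)
    rw [Real.log_mul (by norm_num) (by linarith)] at e1
    have := Real.log_two_lt_d9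
    linarith
  have l3 : Real.log x ≤ (1 + δ / 8) * Real.log m := by
    have e1 : 8 / δ ≤ Real.log m := by linarith
    rw [div_le_iff₀ hδ] at e1
    linarith
  have hHbig : 8 ≤ δ * H := by
    have : 8 / δ ≤ H := b2.trans hH1.le
    rw [div_le_iff₀ hδ] at this
    linarith
  -- conclusion
  have hr1 : |C * Real.log m - H'| ≤ δ / 4 * H' := by
    have e : C * Real.log m / H' - 1 = (C * Real.log m - H') / H' := by field_simp
    rw [e, abs_div, abs_of_pos hH'0, div_le_iff₀ hH'0] at hr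
    exact hr
  have hr1a := (abs_le.1 hr1).1
  have hr1b := (abs_le.1 hr1).2
  have u1 : C * Real.log x ≤ (1 + δ) * H := by
    have e1 : C * Real.log x ≤ (1 + δ / 8) * (C * Real.log m) := by
      calc C * Real.log x ≤ C * ((1 + δ / 8) * Real.log m) := mul_le_mul_of_nonneg_left l3 hC0
        _ = _ := by ring
    have e2 : C * Real.log m ≤ (1 + δ / 4) * ((1 + δ / 8) * H) := by
      have e20 : H' ≤ (1 + δ / 8) * H := by linarith
      have e21 : (1 + δ / 4) * H' ≤ (1 + δ / 4) * ((1 + δ / 8) * H) :=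
        mul_le_mul_of_nonneg_left e20 (by positivity)
      linarith
    have e3 : (1 + δ / 8) * (C * Real.log m) ≤ (1 + δ / 8) * ((1 + δ / 4) * ((1 + δ / 8) * H)) :=
      mul_le_mul_of_nonneg_left e2 (by positivity)
    have e4 : (1 + δ / 8) * ((1 + δ / 4) * (1 + δ / 8)) ≤ 1 + δ := by
      have q1 : δ * δ ≤ δ := by
        calc δ * δ ≤ 1 * δ := mul_le_mul_of_nonneg_right hδ1 hδ.le
          _ = δ := one_mul δ
      have q2 : δ * δ * δ ≤ δ := by
        calc δ * δ * δ ≤ δ * δ := mul_le_of_le_one_right (by positivity) hδ1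
          _ ≤ δ := q1
      have q3 : (1 + δ / 8) * ((1 + δ / 4) * (1 + δ / 8)) =
        1 + δ / 2 + 5 / 64 * (δ * δ) + 1 / 256 * (δ * δ * δ) := by ring
      rw [q3]; linarith
    calc C * Real.log x ≤ (1 + δ / 8) * ((1 + δ / 4) * ((1 + δ / 8) * H)) := e1.trans e3
      _ = ((1 + δ / 8) * ((1 + δ / 4) * (1 + δ / 8))) * H := by ring
      _ ≤ (1 + δ) * H := mul_le_mul_of_nonneg_right e4 hH0.le
  have u2 : (1 - δ) * H ≤ C * Real.log x := by
    have e1 : C * Real.log m ≤ C * Real.log x := mul_le_mul_of_nonneg_left l1 hC0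
    have e2 : (1 - δ / 4) * ((1 - δ / 8) * H) ≤ C * Real.log m := by
      have e20 : (1 - δ / 8) * H ≤ H' := by linarith
      have e21 : (1 - δ / 4) * ((1 - δ / 8) * H) ≤ (1 - δ / 4) * H' :=
        mul_le_mul_of_nonneg_left e20 (by linarith)
      linarith
    have e5 : (1 - δ) * H ≤ (1 - δ / 4) * ((1 - δ / 8) * H) := by
      have q1 : 0 ≤ δ * δ * H := by positivity
      have q2 : 0 ≤ δ * H := by positivity
      have q3 : (1 - δ / 4) * ((1 - δ / 8) * H) = (1 - δ) * H + 5 / 8 * (δ * H) +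
        1 / 32 * (δ * δ * H) := by ring
      rw [q3]; linarith
    linarith
  have e : C - H / Real.log x = (C * Real.log x - H) / Real.log x := by field_simp
  rw [e, abs_div, abs_of_pos hlx, ← mul_div_assoc, div_le_div_iff_of_pos_right hlx, abs_le]
  constructor <;> linarith

theorem asymp_iff {c : ℝ} (hc : 0 ≤ c) : Asymp c ↔ IdAll c :=
  ⟨id_of_asymp hc, asymp_of_id hc⟩

end Pool.Agent.H99.OG
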