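import Pool.Agent.H99.OG.Gaps

/-! The equivalences between gap bounds and the regularity of some order, of most orders. -/

open Finset Filter

namespace Pool.Agent.H99.OG

/-- all gaps are at most `p ^ (c + ε)` -/
def GapAll (c : ℝ) : Prop :=
  ∀ ε : ℝ, 0 < ε → ∀ᶠ n : ℕ in atTop, (gap n : ℝ) ≤ (pr n : ℝ) ^ (c + ε)

/-- some order of the gaps is regular everywhere -/
def SomeAll (c : ℝ) : Prop :=
  ∀ ε : ℝ, 0 < ε → ∀ δ : ℝ, 0 < δ → ∀ᶠ N : ℕ in atTop, ∃ σ : Equiv.Perm (Fin N),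
    ∀ x : ℕ, pr N ≤ x → Reg N σ ((pr N : ℝ) ^ (c + ε)) δ x

/-- most orders of the gaps are regular everywhere -/
def MostAll (c : ℝ) : Prop :=
  ∀ ε : ℝ, 0 < ε → ∀ δ : ℝ, 0 < δ → ∃ η : ℝ, 0 < η ∧ ∀ᶠ N : ℕ in atTop,
    (({σ : Equiv.Perm (Fin N) | ¬ ∀ x : ℕ, pr N ≤ x →
      Reg N σ ((pr N : ℝ) ^ (c + ε)) δ x}.ncard : ℕ) : ℝ) ≤ Real.exp (-(N : ℝ) ^ η) * N.factorial

/-- the gaps longer than `p ^ (c + ε)` have negligible total length -/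
def GapAlmost (c : ℝ) : Prop :=
  ∀ ε : ℝ, 0 < ε → ∀ δ : ℝ, 0 < δ → ∀ᶠ N : ℕ in atTop,
    TB N ((pr N : ℝ) ^ (c + ε)) ≤ δ * pr N

/-- some order of the gaps is regular almost everywhere -/
def SomeAlmost (c : ℝ) : Prop :=
  ∀ ε : ℝ, 0 < ε → ∀ δ : ℝ, 0 < δ → ∀ᶠ N : ℕ in atTop, ∃ σ : Equiv.Perm (Fin N),
    ((irr N σ ((pr N : ℝ) ^ (c + ε)) δ).card : ℝ) ≤ δ * pr N

/-- most orders of the gaps are regular almost everywhere -/
def MostAlmost (c : ℝ) : Prop :=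
  ∀ ε : ℝ, 0 < ε → ∀ δ : ℝ, 0 < δ → ∃ η : ℝ, 0 < η ∧ ∀ᶠ N : ℕ in atTop,
    (({σ : Equiv.Perm (Fin N) | ¬ (((irr N σ ((pr N : ℝ) ^ (c + ε)) δ).card : ℝ) ≤
      δ * pr N)}.ncard : ℕ) : ℝ) ≤ Real.exp (-(N : ℝ) ^ η) * N.factorial

lemma exists_of_ncard (N : ℕ) (hN : 0 < N) (η : ℝ) (p : Equiv.Perm (Fin N) → Prop)
    (h : (({σ : Equiv.Perm (Fin N) | ¬ p σ}.ncard : ℕ) : ℝ) ≤
      Real.exp (-(N : ℝ) ^ η) * N.factorial) : ∃ σ, p σ := by
  by_contra hc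
  push Not at hc
  have h1 : {σ : Equiv.Perm (Fin N) | ¬ p σ} = Set.univ := by
    ext σ; simp [hc σ]
  rw [h1, Set.ncard_univ, Nat.card_eq_fintype_card, Fintype.card_perm, Fintype.card_fin] at h
  have hN' : (0 : ℝ) < N := by exact_mod_cast hN
  have h2 : Real.exp (-(N : ℝ) ^ η) < 1 := by
    rw [Real.exp_lt_one_iff]
    have := Real.rpow_pos_of_pos hN' η
    linarith
  have h3 : (0 : ℝ) < N.factorial := by exact_mod_cast N.factorial_pos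
  nlinarith

lemma MostAll.some {c : ℝ} (h : MostAll c) : SomeAll c := by
  intro ε hε δ hδ
  obtain ⟨η, -, hη⟩ := h ε hε δ hδ
  filter_upwards [hη, eventually_gt_atTop 0] with N h1 h2
  exact exists_of_ncard N h2 η _ h1

lemma MostAlmost.some {c : ℝ} (h : MostAlmost c) : SomeAlmost c := by
  intro ε hε δ hδ
  obtain ⟨η, -, hη⟩ := h ε hε δ hδ
  filter_upwards [hη, eventually_gt_atTop 0] with N h1 h2
  exact exists_of_ncard N h2 η _ h1

/-- `2 p^(c + ε/2) ≤ p^(c + ε)` for large `p`. -/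
lemma two_mul_pow (c ε : ℝ) (hε : 0 < ε) : ∀ᶠ N : ℕ in atTop,
    2 * (pr N : ℝ) ^ (c + ε / 2) ≤ (pr N : ℝ) ^ (c + ε) := by
  filter_upwards [pow_large (ε / 2) 2 (by positivity)] with N h
  have h1 : (pr N : ℝ) ^ (c + ε) = (pr N : ℝ) ^ (ε / 2) * (pr N : ℝ) ^ (c + ε / 2) := by
    rw [← Real.rpow_add (pr_pos N)]; congr 1; ring
  rw [h1]
  exact mul_le_mul_of_nonneg_right h (Real.rpow_nonneg (pr_pos N).le _)

lemma SomeAll.gap {c : ℝ} (h : SomeAll c) : GapAll c := by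
  intro ε hε
  filter_upwards [h (ε / 2) (by positivity) (1 / 2) (by norm_num), two_mul_pow c ε hε,
    eventually_gt_atTop 0] with N h1 h2 h3
  obtain ⟨σ, hσ⟩ := h1
  rw [← irr_empty_iff N σ _ _ (Real.rpow_pos_of_pos (pr_pos N) _)] at hσ
  have h4 := irr_lower N σ _ _ (1 / 2) h2 (by norm_num)
  rw [hσ, Finset.card_empty, Nat.cast_zero, mul_zero] at h4
  exact gap_le_of_TB N N _ le_rfl (by omega) h4

lemma SomeAlmost.gap {c : ℝ} (h : SomeAlmost c) : GapAlmost c := by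
  intro ε hε δ hδ
  have hm : 0 < min (1 / 2) (δ / 2) := lt_min (by norm_num) (by positivity)
  filter_upwards [h (ε / 2) (by positivity) (min (1 / 2) (δ / 2)) hm, two_mul_pow c ε hε]
    with N h1 h2
  obtain ⟨σ, hσ⟩ := h1
  have h4 := irr_lower N σ _ _ (min (1 / 2) (δ / 2)) h2
    (lt_of_le_of_lt (min_le_left _ _) (by norm_num))
  have h5 : min (1 / 2) (δ / 2) * (pr N : ℝ) ≤ δ / 2 * pr N :=
    mul_le_mul_of_nonneg_right (min_le_right _ _) (pr_pos N).le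
  linarith

lemma GapAll.TB_zero {c : ℝ} (hc : 0 ≤ c) (h : GapAll c) (ε : ℝ) (hε : 0 < ε) :
    ∀ᶠ N : ℕ in atTop, TB N ((pr N : ℝ) ^ (c + ε)) = 0 := by
  obtain ⟨n0, hn0⟩ := eventually_atTop.1 (h (ε / 2) (by positivity))
  filter_upwards [eventually_ge_atTop n0, facts 1 one_pos,
    pow_large (ε / 2) ((3 : ℝ) ^ (c + ε / 2)) (by positivity)] with N h1 h2 h3
  unfold TB
  rw [Finset.filter_false_of_mem, Finset.sum_empty]
  intro n hn
  rw [Finset.mem_Ico] at hn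
  rw [not_lt]
  have h4 : (pr n : ℝ) ≤ 3 * pr N := by
    have : (pr n : ℝ) ≤ pr (2 * N) := by exact_mod_cast pr_strictMono.monotone hn.2.le
    linarith [h2.2.2.2.1]
  calc (gap n : ℝ) ≤ (pr n : ℝ) ^ (c + ε / 2) := hn0 n (by omega)
    _ ≤ (3 * pr N) ^ (c + ε / 2) := Real.rpow_le_rpow (pr_pos n).le h4 (by positivity)
    _ = (3 : ℝ) ^ (c + ε / 2) * (pr N : ℝ) ^ (c + ε / 2) :=
        Real.mul_rpow (by norm_num) (pr_pos N).le
    _ ≤ (pr N : ℝ) ^ (ε / 2) * (pr N : ℝ) ^ (c + ε / 2) :=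
        mul_le_mul_of_nonneg_right h3 (Real.rpow_nonneg (pr_pos N).le _)
    _ = (pr N : ℝ) ^ (c + ε) := by rw [← Real.rpow_add (pr_pos N)]; congr 1; ring

lemma GapAll.almost {c : ℝ} (hc : 0 ≤ c) (h : GapAll c) : GapAlmost c := by
  intro ε hε δ hδ
  filter_upwards [h.TB_zero hc ε hε] with N h1
  rw [h1]
  exact mul_nonneg hδ.le (pr_pos N).le

/-- The estimate for typical orders, from any bound for the total length of the long gaps. -/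
lemma typical (c ε δ : ℝ) (hc : 0 ≤ c) (hε : 0 < ε) (hδ : 0 < δ) (hδ1 : δ ≤ 1) :
    ∃ δ2 > 0, ∀ᶠ N : ℕ in atTop, TB N ((pr N : ℝ) ^ (c + ε / 2)) ≤ δ2 * pr N →
    (({σ : Equiv.Perm (Fin N) | ¬ (δ / 16 * (irr N σ ((pr N : ℝ) ^ (c + ε)) δ).card ≤
      TB N ((pr N : ℝ) ^ (c + ε / 2)))}.ncard : ℕ) : ℝ) ≤
      Real.exp (-((N : ℝ) ^ (ε / 4))) * N.factorial := by
  obtain ⟨δ2, hδ2, hcore⟩ := core δ hδ hδ1
  refine ⟨δ2, hδ2, ?_⟩
  filter_upwards [hcore, log_small (c + ε) (by positivity),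
    exp_small ((δ / 16) ^ 2 / 16) (ε / 2) (by positivity) (by positivity)] with N h1 h2 h3 hTB
  have hp := pr_pos N
  refine (h1 ((pr N : ℝ) ^ (c + ε / 2)) (Real.rpow_pos_of_pos hp _) ((pr N : ℝ) ^ (c + ε)) h2
    hTB).trans ?_
  have e1 : (δ / 16) ^ 2 * (pr N : ℝ) ^ (c + ε) / (16 * (pr N : ℝ) ^ (c + ε / 2)) =
      (δ / 16) ^ 2 / 16 * (pr N : ℝ) ^ (ε / 2) := by
    have e2 : (pr N : ℝ) ^ (c + ε) = (pr N : ℝ) ^ (ε / 2) * (pr N : ℝ) ^ (c + ε / 2) := by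
      rw [← Real.rpow_add hp]; congr 1; ring
    have e3 : (pr N : ℝ) ^ (c + ε / 2) ≠ 0 := (Real.rpow_pos_of_pos hp _).ne'
    rw [e2]
    field_simp
  rw [e1]
  have hfac : (0 : ℝ) ≤ N.factorial := Nat.cast_nonneg _
  have e4 : ε / 4 = ε / 2 / 2 := by ring
  rw [e4]
  calc 2 * ((N : ℝ) + 1) ^ 2 * (N.factorial *
        Real.exp (-((δ / 16) ^ 2 / 16 * (pr N : ℝ) ^ (ε / 2))))
      = (2 * ((N : ℝ) + 1) ^ 2 * Real.exp (-((δ / 16) ^ 2 / 16 * (pr N : ℝ) ^ (ε / 2)))) *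
          N.factorial := by ring
    _ ≤ _ := mul_le_mul_of_nonneg_right h3 hfac

lemma GapAll.most {c : ℝ} (hc : 0 ≤ c) (h : GapAll c) : MostAll c := by
  intro ε hε δ hδ
  set d := min δ 1 with hd
  have hd0 : 0 < d := lt_min hδ one_pos
  obtain ⟨δ2, hδ2, ht⟩ := typical c ε d hc hε hd0 (min_le_right _ _)
  refine ⟨ε / 4, by positivity, ?_⟩
  filter_upwards [ht, h.TB_zero hc (ε / 2) (by positivity)] with N h1 h2
  rw [h2] at h1
  refine le_trans ?_ (h1 (mul_nonneg hδ2.le (pr_pos N).le))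
  have hsub : {σ : Equiv.Perm (Fin N) | ¬ ∀ x : ℕ, pr N ≤ x →
      Reg N σ ((pr N : ℝ) ^ (c + ε)) δ x} ⊆
      {σ : Equiv.Perm (Fin N) | ¬ (d / 16 * (irr N σ ((pr N : ℝ) ^ (c + ε)) d).card ≤ 0)} := by
    intro σ hσ hσ2
    apply hσ
    have h3 : ((irr N σ ((pr N : ℝ) ^ (c + ε)) d).card : ℝ) ≤ 0 := by
      by_contra hc2
      rw [not_le] at hc2
      have : 0 < d / 16 * ((irr N σ ((pr N : ℝ) ^ (c + ε)) d).card : ℝ) := by positivity
      linarith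
    have h4 : irr N σ ((pr N : ℝ) ^ (c + ε)) d = ∅ := by
      rw [← Finset.card_eq_zero]
      exact_mod_cast le_antisymm h3 (Nat.cast_nonneg _)
    rw [irr_empty_iff N σ _ _ (Real.rpow_pos_of_pos (pr_pos N) _)] at h4
    intro x hx
    exact (h4 x hx).mono le_rfl (min_le_left _ _)
  exact_mod_cast Set.ncard_le_ncard hsub (Set.toFinite _)

lemma GapAlmost.most {c : ℝ} (hc : 0 ≤ c) (h : GapAlmost c) : MostAlmost c := by
  classical
  intro ε hε δ hδ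
  set d := min δ 1 with hd
  have hd0 : 0 < d := lt_min hδ one_pos
  obtain ⟨δ2, hδ2, ht⟩ := typical c ε d hc hε hd0 (min_le_right _ _)
  refine ⟨ε / 4, by positivity, ?_⟩
  have hm : 0 < min δ2 (d / 16 * δ) := lt_min hδ2 (by positivity)
  filter_upwards [ht, h (ε / 2) (by positivity) (min δ2 (d / 16 * δ)) hm] with N h1 h2
  have hp := pr_pos N
  refine le_trans ?_ (h1 (h2.trans (mul_le_mul_of_nonneg_right (min_le_left _ _) hp.le)))
  have h3 : TB N ((pr N : ℝ) ^ (c + ε / 2)) ≤ d / 16 * δ * pr N :=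
    h2.trans (mul_le_mul_of_nonneg_right (min_le_right _ _) hp.le)
  have hsub : {σ : Equiv.Perm (Fin N) | ¬ (((irr N σ ((pr N : ℝ) ^ (c + ε)) δ).card : ℝ) ≤
      δ * pr N)} ⊆
      {σ : Equiv.Perm (Fin N) | ¬ (d / 16 * (irr N σ ((pr N : ℝ) ^ (c + ε)) d).card ≤
        TB N ((pr N : ℝ) ^ (c + ε / 2)))} := by
    intro σ hσ hσ2
    apply hσ
    have h4 : irr N σ ((pr N : ℝ) ^ (c + ε)) δ ⊆ irr N σ ((pr N : ℝ) ^ (c + ε)) d := by
      unfold irr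
      intro x hx
      rw [Finset.mem_filter] at hx ⊢
      exact ⟨hx.1, fun hr => hx.2 (hr.mono le_rfl (min_le_left _ _))⟩
    have h5 : ((irr N σ ((pr N : ℝ) ^ (c + ε)) δ).card : ℝ) ≤
        (irr N σ ((pr N : ℝ) ^ (c + ε)) d).card := by exact_mod_cast Finset.card_le_card h4
    have h6 : d / 16 * ((irr N σ ((pr N : ℝ) ^ (c + ε)) d).card : ℝ) ≤ d / 16 * (δ * pr N) := by
      linarith
    exact h5.trans (le_of_mul_le_mul_left h6 (by positivity))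
  exact_mod_cast Set.ncard_le_ncard hsub (Set.toFinite _)

theorem all_iff {c : ℝ} (hc : 0 ≤ c) :
    (GapAll c ↔ SomeAll c) ∧ (GapAll c ↔ MostAll c) :=
  ⟨⟨fun h => (h.most hc).some, fun h => h.gap⟩, ⟨fun h => h.most hc, fun h => h.some.gap⟩⟩

theorem almost_iff {c : ℝ} (hc : 0 ≤ c) :
    (GapAlmost c ↔ SomeAlmost c) ∧ (GapAlmost c ↔ MostAlmost c) :=
  ⟨⟨fun h => (h.most hc).some, fun h => h.gap⟩, ⟨fun h => h.most hc, fun h => h.some.gap⟩⟩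

end Pool.Agent.H99.OG
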