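import Pool.Graph.R_pool_sql_team_seeded_64922ed1.Results.MP_f9960f_nt.FrequencyOfMaierDeviations
import Pool.Agent.H99.OG.Identity
import Pool.Agent.H99.OG.Typical

/-! Powers of the logarithm: typical orders are regular, the order of the primes is not. -/

open Finset Filter Topology

namespace Pool.Agent.H99.OG

lemma log_scale_typical (A B D δ : ℝ) (hB : 1 ≤ B) (hA : B + 1 < A) (hδ : 0 < δ) :
    ∀ᶠ N : ℕ in atTop, (∀ n ∈ Ico N (2 * N), (gap n : ℝ) ≤ Real.log (pr N) ^ B) →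
      (({σ : Equiv.Perm (Fin N) | ¬ ∀ x : ℕ, pr N ≤ x →
        Reg N σ (Real.log (pr N) ^ A) δ x}.ncard : ℕ) : ℝ) ≤ (N : ℝ) ^ (-D) * N.factorial := by
  set d := min δ 1 with hd
  have hd0 : 0 < d := lt_min hδ one_pos
  obtain ⟨δ2, hδ2, hcore⟩ := core d hd0 (min_le_right _ _)
  set κ : ℝ := (d / 16) ^ 2 / 16 with hκ
  have hκ0 : 0 < κ := by positivity
  have hlarge := ((tendsto_rpow_atTop (show 0 < A - B - 1 by linarith)).comp
    log_pr_tendsto).eventually_ge_atTop ((3 + |D|) / κ)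
  filter_upwards [hcore, hlarge, log_pr_tendsto.eventually_ge_atTop 1, eventually_gt_atTop 0]
    with N h1 h2 h3 hN hgap
  have hL := log_pr_pos N
  set L := Real.log (pr N) with hLdef
  have hN0 : (0 : ℝ) < N := by exact_mod_cast hN
  have hN1 : (1 : ℝ) ≤ N := by exact_mod_cast hN
  have hTB : TB N (L ^ B) = 0 := by
    unfold TB
    rw [Finset.filter_false_of_mem, Finset.sum_empty]
    intro n hn
    exact not_lt.2 (hgap n hn)
  have hH : L ^ 2 ≤ L ^ A := by
    rw [← Real.rpow_natCast]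
    exact Real.rpow_le_rpow_of_exponent_le h3 (by push_cast; linarith)
  have h4 := h1 (L ^ B) (Real.rpow_pos_of_pos hL _) (L ^ A) hH (by
    rw [hTB]; exact mul_nonneg hδ2.le (pr_pos N).le)
  rw [hTB] at h4
  have hsub : {σ : Equiv.Perm (Fin N) | ¬ ∀ x : ℕ, pr N ≤ x → Reg N σ (L ^ A) δ x} ⊆
      {σ : Equiv.Perm (Fin N) | ¬ (d / 16 * (irr N σ (L ^ A) d).card ≤ 0)} := by
    intro σ hσ hσ2
    apply hσ
    have h5 : ((irr N σ (L ^ A) d).card : ℝ) ≤ 0 := by
      by_contra hc2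
      rw [not_le] at hc2
      have : 0 < d / 16 * ((irr N σ (L ^ A) d).card : ℝ) := by positivity
      linarith
    have h6 : irr N σ (L ^ A) d = ∅ := by
      rw [← Finset.card_eq_zero]
      exact_mod_cast le_antisymm h5 (Nat.cast_nonneg _)
    rw [irr_empty_iff N σ _ _ (Real.rpow_pos_of_pos hL _)] at h6
    intro x hx
    exact (h6 x hx).mono le_rfl (min_le_left _ _)
  have h7 : (({σ : Equiv.Perm (Fin N) | ¬ ∀ x : ℕ, pr N ≤ x → Reg N σ (L ^ A) δ x}.ncard : ℕ) : ℝ) ≤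
      (({σ : Equiv.Perm (Fin N) | ¬ (d / 16 * (irr N σ (L ^ A) d).card ≤ 0)}.ncard : ℕ) : ℝ) := by
    exact_mod_cast Set.ncard_le_ncard hsub (Set.toFinite _)
  refine (h7.trans h4).trans ?_
  have hfac : (0 : ℝ) ≤ N.factorial := Nat.cast_nonneg _
  have e1 : (d / 16) ^ 2 * L ^ A / (16 * L ^ B) = κ * (L ^ (A - B - 1) * L) := by
    have e2 : L ^ A = L ^ B * (L ^ (A - B - 1) * L) := by
      rw [← Real.rpow_add_one hL.ne', ← Real.rpow_add hL]; congr 1; ring
    have e3 : L ^ B ≠ 0 := (Real.rpow_pos_of_pos hL _).ne'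
    rw [e2, hκ]
    field_simp
  rw [e1]
  have h8 : (3 + |D|) * L ≤ κ * (L ^ (A - B - 1) * L) := by
    simp only [Function.comp] at h2
    rw [div_le_iff₀ hκ0] at h2
    nlinarith
  have h9 : Real.log ((N : ℝ) + 1) ≤ L := by
    apply Real.log_le_log (by positivity)
    have := lt_pr N
    exact_mod_cast this
  have hlog0 : 0 ≤ Real.log N := Real.log_nonneg hN1
  have h10 : Real.log N ≤ L := (Real.log_le_log hN0 (by linarith)).trans h9
  have h11 : 2 * ((N : ℝ) + 1) ^ 2 * Real.exp (-(κ * (L ^ (A - B - 1) * L))) ≤ (N : ℝ) ^ (-D) := by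
    have e4 : 2 * ((N : ℝ) + 1) ^ 2 = Real.exp (Real.log 2 + 2 * Real.log ((N : ℝ) + 1)) := by
      rw [Real.exp_add, Real.exp_log (by norm_num), two_mul (Real.log ((N : ℝ) + 1)), Real.exp_add,
        Real.exp_log (by positivity)]
      ring
    have e5 : (N : ℝ) ^ (-D) = Real.exp (Real.log N * (-D)) := Real.rpow_def_of_pos hN0 _
    rw [e4, e5, ← Real.exp_add]
    apply Real.exp_le_exp.2
    have e6 : Real.log N * D ≤ |D| * L := by
      calc Real.log N * D ≤ Real.log N * |D| := mul_le_mul_of_nonneg_left (le_abs_self D) hlog0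
        _ ≤ L * |D| := mul_le_mul_of_nonneg_right h10 (abs_nonneg D)
        _ = |D| * L := mul_comm _ _
    have e7 : Real.log 2 ≤ 1 := by
      have := Real.log_two_lt_d9
      linarith
    linarith
  calc 2 * ((N : ℝ) + 1) ^ 2 * (N.factorial * Real.exp (-(κ * (L ^ (A - B - 1) * L))))
      = (2 * ((N : ℝ) + 1) ^ 2 * Real.exp (-(κ * (L ^ (A - B - 1) * L)))) * N.factorial := by ring
    _ ≤ _ := mul_le_mul_of_nonneg_right h11 hfac

/-- Maier's theorem, in terms of the identity order. -/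
lemma maier_id (A : ℝ) (hA : 1 ≤ A) : ∃ δ : ℝ, 0 < δ ∧ ∃ᶠ N : ℕ in atTop,
    ¬ ∀ x : ℕ, pr N ≤ x → Reg N 1 (Real.log (pr N) ^ A) δ x := by
  obtain ⟨δ, hδ, X0, hX⟩ :=
    Pool.Agent.Results.MP_f9960f_nt.FrequencyOfMaierDeviations.result A (1 / 2) hA (by norm_num)
  refine ⟨δ / 2, by positivity, ?_⟩
  rw [Filter.frequently_atTop]
  intro N1
  -- everything large
  have hpow : ∀ᶠ N : ℕ in atTop, (2 * Real.log (pr N)) ^ A ≤ 1 / 5 * pr N := by
    have h1 := (isLittleO_log_rpow_atTop (show (0 : ℝ) < 1 / A by positivity)).bound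
      (show (0 : ℝ) < 1 / 2 * (1 / 5 : ℝ) ^ (1 / A) by positivity)
    filter_upwards [prR_tendsto.eventually h1] with N h
    have hp := pr_pos N
    have hl := log_pr_pos N
    rw [Real.norm_eq_abs, Real.norm_eq_abs, abs_of_pos hl,
      abs_of_pos (Real.rpow_pos_of_pos hp _)] at h
    have h2 : 2 * Real.log (pr N) ≤ (1 / 5 * (pr N : ℝ)) ^ (1 / A) := by
      rw [Real.mul_rpow (by norm_num) hp.le]
      linarith
    calc (2 * Real.log (pr N)) ^ A ≤ ((1 / 5 * (pr N : ℝ)) ^ (1 / A)) ^ A :=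
          Real.rpow_le_rpow (by positivity) h2 (by linarith)
      _ = 1 / 5 * pr N := by
          have hA0 : A ≠ 0 := by linarith
          rw [← Real.rpow_mul (by positivity), one_div_mul_cancel hA0, Real.rpow_one]
  obtain ⟨N0, hN0⟩ := eventually_atTop.1 ((hpow.and next_prime).and (pr_two_ge.and
    (log_pr_tendsto.eventually_ge_atTop 1)))
  set N2 := max N0 N1 with hN2
  -- a bad integer above `pr N2`
  obtain ⟨X, hXX, hX1, hX2⟩ : ∃ X : ℝ, X0 ≤ X ∧ 1 ≤ X ∧ (pr N2 : ℝ) < X * Real.exp (-(Real.log X) ^ ((1 : ℝ) / 2)) := by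
    have h1 : Tendsto (fun L : ℝ => L - L ^ ((1 : ℝ) / 2)) atTop atTop := by
      have h2 : ∀ᶠ L : ℝ in atTop, L / 2 ≤ L - L ^ ((1 : ℝ) / 2) := by
        filter_upwards [eventually_ge_atTop (4 : ℝ)] with L hL
        have h3 : L ^ ((1 : ℝ) / 2) = Real.sqrt L := (Real.sqrt_eq_rpow L).symm
        have h4 : Real.sqrt L ≤ L / 2 := by
          rw [Real.sqrt_le_left (by linarith)]
          nlinarith
        rw [h3]; linarith
      exact tendsto_atTop_mono' _ h2 (tendsto_id.atTop_div_const (by norm_num))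
    have h5 : Tendsto (fun X : ℝ => Real.exp (Real.log X - (Real.log X) ^ ((1 : ℝ) / 2))) atTop atTop :=
      Real.tendsto_exp_atTop.comp (h1.comp Real.tendsto_log_atTop)
    obtain ⟨X, h6, h7, h8⟩ := ((h5.eventually_gt_atTop (pr N2 : ℝ)).and
      ((eventually_ge_atTop X0).and (eventually_ge_atTop 1))).exists
    refine ⟨X, h7, h8, ?_⟩
    rw [sub_eq_add_neg, Real.exp_add, Real.exp_log (by linarith)] at h6
    exact h6
  have hcount := (hX X hXX).2
  set S := (Finset.Icc 1 ⌊X⌋₊).filter (fun n : ℕ =>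
        (((Finset.Ioc n ⌊(n : ℝ) + (Real.log n) ^ A⌋₊).filter Nat.Prime).card : ℝ) ≤
          (1 - δ) * (Real.log n) ^ (A - 1)) with hS
  obtain ⟨n, hnS, hn⟩ : ∃ n ∈ S, pr N2 < n := by
    by_contra hc
    push Not at hc
    have h1 : S ⊆ Finset.Icc 1 (pr N2) := by
      intro n hn
      exact Finset.mem_Icc.2 ⟨(Finset.mem_Icc.1 (Finset.mem_filter.1 hn).1).1, hc n hn⟩
    have h2 := Finset.card_le_card h1
    rw [Nat.card_Icc, Nat.add_sub_cancel] at h2
    have h3 : (S.card : ℝ) ≤ pr N2 := by exact_mod_cast h2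
    linarith
  have hbad := (Finset.mem_filter.1 hnS).2
  obtain ⟨N, hNa, hNb⟩ : ∃ N, pr N ≤ n ∧ n < pr (N + 1) := by
    have hex : ∃ k, n < pr k := ⟨n, lt_pr n⟩
    have h5 := Nat.find_spec hex
    have h6 : Nat.find hex ≠ 0 := by
      intro h7
      rw [h7] at h5
      have h8 : pr 0 ≤ pr N2 := pr_strictMono.monotone (Nat.zero_le _)
      omega
    obtain ⟨N, hN⟩ := Nat.exists_eq_succ_of_ne_zero h6
    refine ⟨N, ?_, ?_⟩
    · have := Nat.find_min hex (m := N) (by omega)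
      exact not_lt.1 this
    · rw [hN] at h5
      exact h5
  have hNN : N2 ≤ N := by
    by_contra hc
    have h5 : pr (N + 1) ≤ pr N2 := pr_strictMono.monotone (by omega)
    omega
  refine ⟨N, (le_max_right _ _).trans hNN, fun hreg => ?_⟩
  obtain ⟨⟨r1, r2⟩, r3, r4⟩ := hN0 N ((le_max_left _ _).trans hNN)
  have hp := pr_pos N
  have hL := log_pr_pos N
  have hnr : (pr N : ℝ) ≤ n := by exact_mod_cast hNa
  have hn6 : (n : ℝ) ≤ 6 / 5 * pr N := by
    have : (n : ℝ) ≤ pr (N + 1) := by exact_mod_cast hNb.le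
    linarith
  have hl1 : Real.log (pr N) ≤ Real.log n := Real.log_le_log hp hnr
  have hl2 : Real.log n ≤ 2 * Real.log (pr N) := by
    have e1 : Real.log n ≤ Real.log (2 * pr N) := Real.log_le_log (by linarith) (by linarith)
    rw [Real.log_mul (by norm_num) hp.ne'] at e1
    have := Real.log_two_lt_d9
    linarith
  have hln : 0 < Real.log n := by linarith
  have hH1 : Real.log (pr N) ^ A ≤ Real.log n ^ A := Real.rpow_le_rpow hL.le hl1 (by linarith)
  have hH2 : Real.log n ^ A ≤ 1 / 5 * pr N :=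
    (Real.rpow_le_rpow hln.le hl2 (by linarith)).trans r1
  have hend : (n : ℝ) + Real.log n ^ A ≤ pr (2 * N) := by linarith
  have h := hreg n hNa (Real.log n ^ A) hH1 hend
  have hpos : 0 < Real.log n ^ A := Real.rpow_pos_of_pos hln _
  rw [id_cnt N n _ hNa hpos.le hend] at h
  set C := (((Finset.Ioc n ⌊(n : ℝ) + Real.log n ^ A⌋₊).filter Nat.Prime).card : ℝ) with hC
  have h1 := (abs_le.1 h).1
  have h2 : C * Real.log n / Real.log n ^ A ≤ 1 - δ := by
    rw [div_le_iff₀ hpos]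
    have e1 : Real.log n ^ A = Real.log n ^ (A - 1) * Real.log n := by
      rw [← Real.rpow_add_one hln.ne']; congr 1; ring
    rw [e1]
    calc C * Real.log n ≤ ((1 - δ) * Real.log n ^ (A - 1)) * Real.log n :=
          mul_le_mul_of_nonneg_right hbad hln.le
      _ = _ := by ring
  linarith

end Pool.Agent.H99.OG
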