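import Pool.Graph.R_pool_sql_team_8f841797.H16.PairSieve
import Pool.Agent.H99.OG.Core

/-! At most half of the gaps have length within `1 ± δ` of the average. -/

open Finset Filter Topology

namespace Pool.Agent.H99.OG

open Pool.Agent.H16.PairSieve in
theorem avgG (G : ℕ → ℝ) (z H : ℕ) (hG : ∀ p ∈ P0 z, 0 ≤ G p ∧ G p ≤ 3 * g p) :
    ∑ h ∈ Ioc 0 H, ∏ p ∈ P0 z with p ∣ h, (1 + G p) ≤ 27 * H := by
  have h5 : ∀ p ∈ P0 z, p.Prime ∧ 5 ≤ p := fun p hp => (mem_filter.mp hp).2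
  have h1 : ∀ h, ∏ p ∈ P0 z with p ∣ h, (1 + G p) =
      ∑ S ∈ (P0 z).powerset, if ∀ p ∈ S, p ∣ h then ∏ p ∈ S, G p else 0 := fun h => by
    rw [prod_one_add, ← sum_filter]
    congr 1
    ext S
    simp only [mem_powerset, mem_filter, subset_iff]
    exact ⟨fun a => ⟨fun p hp => (a hp).1, fun p hp => (a hp).2⟩, fun a p hp => ⟨a.1 hp, a.2 p hp⟩⟩
  have h2 : ∑ p ∈ P0 z, g p / p ≤ 1 := by
    have h4 : ∀ n : ℕ, ∑ p ∈ range (n + 5) with 5 ≤ p, g p / p ≤ 1 - 2 / (n + 2 : ℝ) := by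
      intro n
      induction n with
      | zero => rw [filter_false_of_mem (by simp)]; simp
      | succ n ih =>
        rw [show n + 1 + 5 = n + 5 + 1 from rfl, range_add_one, filter_insert, if_pos (by omega),
          sum_insert (by simp), g]
        push_cast
        have : 2 / (n + 5 - 2 : ℝ) / (n + 5) ≤ 2 / (n + 2) - 2 / (n + 1 + 2) := by
          rw [div_div, div_sub_div _ _ (by positivity) (by positivity),
            show (n + 5 - 2 : ℝ) = n + 3 by ring, div_le_div_iff₀ (by positivity) (by positivity)]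
          nlinarith [n.cast_nonneg (α := ℝ)]
        linarith
    refine (sum_le_sum_of_subset_of_nonneg (fun p hp => ?_) fun p hp _ => ?_).trans
      ((h4 z).trans (sub_le_self _ (by positivity)))
    · have := mem_range.mp (mem_filter.mp hp).1
      exact mem_filter.mpr ⟨mem_range.mpr (by omega), (h5 p hp).2⟩
    · exact div_nonneg (g_bd (mem_filter.mp hp).2).1 p.cast_nonneg
  have h22 : ∑ p ∈ P0 z, G p / p ≤ 3 := by
    calc ∑ p ∈ P0 z, G p / p ≤ ∑ p ∈ P0 z, 3 * (g p / p) := by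
          refine sum_le_sum fun p hp => ?_
          rw [← mul_div_assoc]
          exact div_le_div_of_nonneg_right (hG p hp).2 p.cast_nonneg
      _ = 3 * ∑ p ∈ P0 z, g p / p := (mul_sum _ _ _).symm
      _ ≤ 3 := by linarith
  have h3 : ∏ p ∈ P0 z, (1 + G p / p) ≤ Real.exp (∑ p ∈ P0 z, G p / p) := by
    rw [Real.exp_sum]
    refine prod_le_prod (fun p hp => ?_) fun p hp => ?_
    · have := div_nonneg (hG p hp).1 (p.cast_nonneg (α := ℝ))
      linarith
    · have := Real.add_one_le_exp (G p / p)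
      linarith
  rw [prod_one_add] at h3
  have h44 : Real.exp 3 ≤ 27 := by
    have e4 : Real.exp 3 = Real.exp 1 ^ 3 := by
      rw [← Real.exp_nat_mul]; norm_num
    rw [e4]
    calc Real.exp 1 ^ 3 ≤ 3 ^ 3 := pow_le_pow_left₀ (Real.exp_pos _).le Real.exp_one_lt_three.le 3
      _ = 27 := by norm_num
  have h4 := h3.trans ((Real.exp_le_exp.mpr h22).trans h44)
  simp only [h1]
  rw [sum_comm]
  refine le_trans (sum_le_sum fun S hS => ?_) ((sum_mul _ _ _).ge.trans
    (mul_le_mul_of_nonneg_right h4 H.cast_nonneg))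
  have hS' : ∀ p ∈ S, p ∈ P0 z := fun p hp => mem_powerset.mp hS hp
  have h6 : ∀ p ∈ S, p.Prime ∧ 5 ≤ p := fun p hp => h5 p (mem_powerset.mp hS hp)
  rw [← sum_filter, sum_const, nsmul_eq_mul, prod_div_distrib, mul_comm, div_mul_eq_mul_div, mul_div_assoc]
  refine mul_le_mul_of_nonneg_left ?_ (prod_nonneg fun p hp => (hG p (hS' p hp)).1)
  rw [← Nat.cast_prod]
  refine le_trans ?_ Nat.cast_div_le
  rw [← Nat.Ioc_filter_dvd_card_eq_div]
  exact_mod_cast card_le_card (monotone_filter_right _ fun h _ e =>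
    prod_primes_dvd _ (fun p hp => (h6 p hp).1.prime) e)

open Pool.Agent.H16.PairSieve in
/-- The singular series over a short window, by the second moment. -/
theorem window (z H : ℕ) (W : Finset ℕ) (hW : W ⊆ Ioc 0 H) :
    (∑ h ∈ W, ∏ p ∈ P0 z with p ∣ h, (1 + g p)) ^ 2 ≤ W.card * (27 * H) := by
  refine sq_sum_le_card_mul_sum_sq.trans ?_
  refine mul_le_mul_of_nonneg_left ?_ (Nat.cast_nonneg _)
  refine le_trans (sum_le_sum_of_subset_of_nonneg hW fun _ _ _ => sq_nonneg _) ?_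
  refine le_trans (le_of_eq ?_) (avgG (fun p => 2 * g p + g p ^ 2) z H ?_)
  · refine sum_congr rfl fun h _ => ?_
    rw [← prod_pow]
    exact prod_congr rfl fun p _ => by ring
  · intro p hp
    have := g_bd (mem_filter.mp hp).2.2
    constructor
    · have := this.1; positivity
    · nlinarith [this.1, this.2.2.2]

open Pool.Agent.H16.PairSieve in
/-- The number of gaps with length in `W`. -/
theorem gaps_in_window (N z H : ℕ) (W : Finset ℕ) (hz : 3 ≤ z) (hW : W ⊆ Ioc 0 H) :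
    (((Ico N (2 * N)).filter (fun n => gap n ∈ W)).card : ℝ) ≤
      18 * ((pr (2 * N) : ℝ) - pr N) / Real.log z ^ 2 * Real.sqrt (W.card * (27 * H)) +
        W.card * (z ^ 64 + z + 1) := by
  classical
  have hmono : pr N ≤ pr (2 * N) := pr_strictMono.monotone (by omega)
  set X := pr (2 * N) - pr N with hX
  have hXr : (X : ℝ) = (pr (2 * N) : ℝ) - pr N := by rw [hX, Nat.cast_sub hmono]
  have h1 : ((Ico N (2 * N)).filter (fun n => gap n ∈ W)).card ≤
      ∑ h ∈ W, #{i ∈ range X | (pr N + i).Prime ∧ (pr N + i + h).Prime} := by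
    have h2 : (Ico N (2 * N)).filter (fun n => gap n ∈ W) ⊆
        W.biUnion (fun h => (Ico N (2 * N)).filter (fun n => gap n = h)) := by
      intro n hn
      rw [mem_filter] at hn
      rw [mem_biUnion]
      exact ⟨gap n, hn.2, mem_filter.2 ⟨hn.1, rfl⟩⟩
    refine (card_le_card h2).trans (card_biUnion_le.trans (sum_le_sum fun h _ => ?_))
    refine card_le_card_of_injOn (fun n => pr n - pr N) ?_ ?_
    · intro n hn
      rw [mem_coe, mem_filter, mem_Ico] at hn
      rw [mem_coe, mem_filter, mem_range]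
      have h3 : pr N ≤ pr n := pr_strictMono.monotone hn.1.1
      have h4 : pr n < pr (2 * N) := pr_strictMono hn.1.2
      have h5 : pr n < pr (n + 1) := pr_strictMono (Nat.lt_add_one n)
      have h6 : pr n + h = pr (n + 1) := by
        rw [← hn.2]; unfold gap; omega
      change pr n - pr N < X ∧ (pr N + (pr n - pr N)).Prime ∧ (pr N + (pr n - pr N) + h).Prime
      refine ⟨by omega, ?_⟩
      rw [Nat.add_sub_cancel' h3, h6]
      exact ⟨pr_prime n, pr_prime (n + 1)⟩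
    · intro a ha b hb hab
      rw [mem_coe, mem_filter, mem_Ico] at ha hb
      have h3 : pr N ≤ pr a := pr_strictMono.monotone ha.1.1
      have h4 : pr N ≤ pr b := pr_strictMono.monotone hb.1.1
      have h5 : pr a = pr b := by
        simp only at hab
        omega
      exact pr_strictMono.injective h5
  have h2 : (((Ico N (2 * N)).filter (fun n => gap n ∈ W)).card : ℝ) ≤
      ∑ h ∈ W, (18 * X / Real.log z ^ 2 * ∏ p ∈ P0 z with p ∣ h, (1 + g p) + (z ^ 64 + z + 1)) := by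
    calc (((Ico N (2 * N)).filter (fun n => gap n ∈ W)).card : ℝ) ≤
        ∑ h ∈ W, (#{i ∈ range X | (pr N + i).Prime ∧ (pr N + i + h).Prime} : ℝ) := by
          exact_mod_cast h1
      _ ≤ _ := sum_le_sum fun h _ => pair1 z h X (pr N) hz
  rw [sum_add_distrib, ← mul_sum, sum_const, nsmul_eq_mul] at h2
  refine h2.trans ?_
  rw [hXr]
  have h3 : (∑ h ∈ W, ∏ p ∈ P0 z with p ∣ h, (1 + g p)) ≤ Real.sqrt (W.card * (27 * H)) :=
    Real.le_sqrt_of_sq_le (window z H W hW)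
  have h4 : 0 ≤ 18 * ((pr (2 * N) : ℝ) - pr N) / Real.log z ^ 2 := by
    rw [← hXr]; positivity
  have := mul_le_mul_of_nonneg_left h3 h4
  linarith

/-- `log N ≥ (log p_N) / 2` for large `N`. -/
lemma log_N_ge : ∀ᶠ N : ℕ in atTop, Real.log (pr N) / 2 ≤ Real.log N := by
  have h1 := (Metric.tendsto_nhds.1 log_ratio) (1 / 4) (by norm_num)
  filter_upwards [h1, log_pr_tendsto.eventually_ge_atTop 4, eventually_gt_atTop 0] with N h1 h2 h3
  rw [Real.dist_eq] at h1
  have hl := log_pr_pos N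
  have h4 := (abs_lt.1 h1).1
  have h5 : 3 / 4 * Real.log (pr N) ≤ Real.log ((N : ℝ) + 1) := by
    have : 3 / 4 ≤ Real.log ((N : ℝ) + 1) / Real.log (pr N) := by linarith
    rwa [le_div_iff₀ hl] at this
  have hN1 : (1 : ℝ) ≤ N := by exact_mod_cast h3
  have h6 : Real.log ((N : ℝ) + 1) ≤ Real.log 2 + Real.log N := by
    rw [← Real.log_mul (by norm_num) (by positivity)]
    exact Real.log_le_log (by positivity) (by linarith)
  have h7 : Real.log 2 < 1 := by
    have := Real.log_two_lt_d9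
    linarith
  linarith

/-- At most half of the gaps are within a factor `1 ± δ` of the average, `δ = 10^(-16)/162`. -/
theorem half_off : ∀ᶠ N : ℕ in atTop,
    (((Ico N (2 * N)).filter (fun n => |(gap n : ℝ) - Real.log (pr N)| ≤
      (1 / (162 * 10 ^ 16)) * Real.log (pr N))).card : ℝ) ≤ N / 2 := by
  obtain ⟨δ, hδ⟩ : ∃ δ : ℝ, δ = 1 / (162 * 10 ^ 16) := ⟨_, rfl⟩
  rw [← hδ]
  have hδ0 : 0 < δ := by rw [hδ]; positivity
  have hN : Tendsto (fun N : ℕ => (N : ℝ)) atTop atTop := tendsto_natCast_atTop_atTop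
  have h0 := ((tendsto_rpow_atTop (show (0 : ℝ) < 1 / 128 by positivity)).comp hN).eventually_ge_atTop 3
  have h1 := (isLittleO_log_rpow_atTop (show (0 : ℝ) < 1 / 2 by positivity)).bound
    (show (0 : ℝ) < 1 / 72 by positivity)
  filter_upwards [facts 1 one_pos, log_N_ge, hN.eventually h1, h0,
    log_pr_tendsto.eventually_ge_atTop (1 / δ)] with N hf hlN h1 h0 hLδ
  obtain ⟨-, -, f3, f4, hpos⟩ := hf
  have hN0 : (0 : ℝ) < N := by exact_mod_cast hpos
  have hN1 : (1 : ℝ) ≤ N := by exact_mod_cast hpos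
  have hL := log_pr_pos N
  set L := Real.log (pr N) with hLdef
  have hLδ' : 1 ≤ δ * L := by
    rw [div_le_iff₀ hδ0] at hLδ
    linarith
  simp only [Function.comp] at h0
  rw [Real.norm_eq_abs, Real.norm_eq_abs, abs_of_nonneg (Real.rpow_nonneg hN0.le _),
    abs_of_nonneg (Real.log_nonneg hN1)] at h1
  set z := ⌊(N : ℝ) ^ ((1 : ℝ) / 128)⌋₊ with hz
  have hz3 : 3 ≤ z := Nat.le_floor (by exact_mod_cast h0)
  have hz1 : (z : ℝ) ≤ (N : ℝ) ^ ((1 : ℝ) / 128) := Nat.floor_le (Real.rpow_nonneg hN0.le _)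
  have hz2 : (N : ℝ) ^ ((1 : ℝ) / 128) < z + 1 := Nat.lt_floor_add_one _
  have hz3' : (3 : ℝ) ≤ z := by exact_mod_cast hz3
  have hz64 : (z : ℝ) ^ 64 ≤ (N : ℝ) ^ ((1 : ℝ) / 2) := by
    calc (z : ℝ) ^ 64 ≤ ((N : ℝ) ^ ((1 : ℝ) / 128)) ^ 64 :=
          pow_le_pow_left₀ (Nat.cast_nonneg _) hz1 64
      _ = (N : ℝ) ^ ((1 : ℝ) / 2) := by
          rw [← Real.rpow_natCast, ← Real.rpow_mul hN0.le]
          norm_num
  have hlz : L / 512 ≤ Real.log z := by
    have e1 : 1 / 128 * Real.log N ≤ 2 * Real.log z := by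
      have e2 : Real.log ((N : ℝ) ^ ((1 : ℝ) / 128)) = 1 / 128 * Real.log N :=
        Real.log_rpow hN0 _
      rw [← e2]
      have e3 : 2 * Real.log z = Real.log ((z : ℝ) ^ 2) := by
        rw [Real.log_pow]; push_cast; ring
      rw [e3]
      exact Real.log_le_log (Real.rpow_pos_of_pos hN0 _) (by nlinarith)
    linarith
  have hlz0 : 0 < Real.log z := lt_of_lt_of_le (by positivity) hlz
  -- the window
  set H := ⌊2 * L⌋₊ with hH
  have hHL : (H : ℝ) ≤ 2 * L := Nat.floor_le (by positivity)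
  classical
  set W := (Ioc 0 H).filter (fun h : ℕ => |(h : ℝ) - L| ≤ δ * L) with hW
  have hδ1 : δ ≤ 1 / 2 := by rw [hδ]; norm_num
  have hWc : (W.card : ℝ) ≤ 3 * (δ * L) := by
    have e1 : W ⊆ Icc ⌈(1 - δ) * L⌉₊ ⌊(1 + δ) * L⌋₊ := by
      intro h hh
      rw [hW, mem_filter] at hh
      have e2 := abs_le.1 hh.2
      rw [mem_Icc]
      constructor
      · exact Nat.ceil_le.2 (by linarith [e2.1])
      · exact Nat.le_floor (by linarith [e2.2])
    have e2 := card_le_card e1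
    rw [Nat.card_Icc] at e2
    have e3 : (1 - δ) * L ≤ (⌈(1 - δ) * L⌉₊ : ℝ) := Nat.le_ceil _
    have e4 : (⌊(1 + δ) * L⌋₊ : ℝ) ≤ (1 + δ) * L := Nat.floor_le (by positivity)
    rcases Nat.le_total ⌈(1 - δ) * L⌉₊ (⌊(1 + δ) * L⌋₊ + 1) with e5 | e5
    · have e6 : (W.card : ℝ) ≤ ((⌊(1 + δ) * L⌋₊ + 1 - ⌈(1 - δ) * L⌉₊ : ℕ) : ℝ) := by
        exact_mod_cast e2
      rw [Nat.cast_sub e5] at e6
      push_cast at e6
      linarith
    · rw [Nat.sub_eq_zero_of_le e5] at e2
      have e6 : (W.card : ℝ) ≤ 0 := by exact_mod_cast e2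
      linarith
  have hsub : (Ico N (2 * N)).filter (fun n => |(gap n : ℝ) - L| ≤ δ * L) ⊆
      (Ico N (2 * N)).filter (fun n => gap n ∈ W) := by
    intro n hn
    rw [mem_filter] at hn ⊢
    refine ⟨hn.1, ?_⟩
    rw [hW, mem_filter, mem_Ioc]
    refine ⟨⟨gap_pos n, ?_⟩, hn.2⟩
    have := (abs_le.1 hn.2).2
    exact Nat.le_floor (by nlinarith)
  have hmain := gaps_in_window N z H W hz3 (filter_subset _ _)
  have hcard : (((Ico N (2 * N)).filter (fun n => |(gap n : ℝ) - L| ≤ δ * L)).card : ℝ) ≤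
      ((Ico N (2 * N)).filter (fun n => gap n ∈ W)).card := by
    exact_mod_cast card_le_card hsub
  refine (hcard.trans hmain).trans ?_
  -- the two terms
  have hsq : Real.sqrt (W.card * (27 * H)) ≤ 1 / 10 ^ 8 * L := by
    rw [Real.sqrt_le_left (by positivity)]
    calc (W.card : ℝ) * (27 * H) ≤ (3 * (δ * L)) * (27 * (2 * L)) :=
          mul_le_mul hWc (by linarith) (by positivity) (by positivity)
      _ = (1 / 10 ^ 8 * L) ^ 2 := by rw [hδ]; ring
  have hX0 : 0 ≤ (pr (2 * N) : ℝ) - pr N := by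
    have : (pr N : ℝ) ≤ pr (2 * N) := by exact_mod_cast pr_strictMono.monotone (by omega)
    linarith
  have hX : (pr (2 * N) : ℝ) - pr N ≤ 4 * (N * L) := by linarith
  have t1 : 18 * ((pr (2 * N) : ℝ) - pr N) / Real.log z ^ 2 * Real.sqrt (W.card * (27 * H)) ≤ N / 4 := by
    have e1 : 18 * ((pr (2 * N) : ℝ) - pr N) / Real.log z ^ 2 ≤
        18 * (4 * (N * L)) / (L / 512) ^ 2 := by
      apply div_le_div₀ (by positivity) (by linarith) (by positivity)
      exact pow_le_pow_left₀ (by positivity) hlz 2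
    calc _ ≤ 18 * (4 * (N * L)) / (L / 512) ^ 2 * (1 / 10 ^ 8 * L) :=
          mul_le_mul e1 hsq (Real.sqrt_nonneg _) (by positivity)
      _ = 18 * 4 * 512 ^ 2 / 10 ^ 8 * N := by field_simp
      _ ≤ N / 4 := by linarith
  have t2 : (W.card : ℝ) * (z ^ 64 + z + 1) ≤ N / 4 := by
    have e1 : (z : ℝ) ≤ z ^ 64 := by
      have : z ≤ z ^ 64 := Nat.le_self_pow (by norm_num) _
      exact_mod_cast this
    have e2 : (z : ℝ) ^ 64 + z + 1 ≤ 3 * (N : ℝ) ^ ((1 : ℝ) / 2) := by linarith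
    have e3 : (N : ℝ) ^ ((1 : ℝ) / 2) * (N : ℝ) ^ ((1 : ℝ) / 2) = N := by
      rw [← Real.rpow_add hN0]; norm_num
    have e4 : L ≤ 1 / 36 * (N : ℝ) ^ ((1 : ℝ) / 2) := by linarith
    have e5 : (0 : ℝ) ≤ (N : ℝ) ^ ((1 : ℝ) / 2) := Real.rpow_nonneg hN0.le _
    calc (W.card : ℝ) * (z ^ 64 + z + 1) ≤ (3 * (δ * L)) * (3 * (N : ℝ) ^ ((1 : ℝ) / 2)) :=
          mul_le_mul hWc e2 (by positivity) (by positivity)
      _ = 9 * δ * (L * (N : ℝ) ^ ((1 : ℝ) / 2)) := by ring
      _ ≤ 9 * 1 * (1 / 36 * (N : ℝ) ^ ((1 : ℝ) / 2) * (N : ℝ) ^ ((1 : ℝ) / 2)) := by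
          apply mul_le_mul (by linarith) (mul_le_mul_of_nonneg_right e4 e5) (by positivity)
            (by norm_num)
      _ = 1 / 4 * ((N : ℝ) ^ ((1 : ℝ) / 2) * (N : ℝ) ^ ((1 : ℝ) / 2)) := by ring
      _ = N / 4 := by rw [e3]; ring
  linarith

end Pool.Agent.H99.OG
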